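import Pool.Agent.Helper237.PR.Defs
import Pool.Agent.Helper237.PF.Integral
import Pool.Agent.Helper237.PF.Proj

set_option autoImplicit false

open Metric Set Filter Topology

namespace PFrame

namespace R6308

theorem implicit_aux (G : ℂ × ℂ → ℂ) (x0 X0 : ℂ) (hG : AnalyticAt ℂ G (x0, X0))
    (h0 : G (x0, X0) = 0) (d : ℂ) (hd : HasDerivAt (fun X => G (x0, X)) d X0) (hd0 : d ≠ 0) :
    ∃ r : ℂ → ℂ, AnalyticAt ℂ r x0 ∧ ∀ᶠ p in 𝓝 (x0, X0), G p = 0 → p.2 = r p.1 := by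
  have hGd : HasFDerivAt G (fderiv ℂ G (x0, X0)) (x0, X0) := hG.differentiableAt.hasFDerivAt
  obtain ⟨G', hG'⟩ : ∃ G' : ℂ × ℂ →L[ℂ] ℂ, G' = fderiv ℂ G (x0, X0) := ⟨_, rfl⟩
  rw [← hG'] at hGd
  have h1 : G' (0, 1) = d := by
    have h2 : HasDerivAt (fun X : ℂ => (x0, X)) ((0 : ℂ), (1 : ℂ)) X0 :=
      (hasDerivAt_const X0 x0).prodMk (hasDerivAt_id X0)
    have h3 := hGd.comp_hasDerivAt X0 h2
    exact h3.unique hd
  have h1' : ∀ u v : ℂ, G' (u, v) = G' (u, 0) + d * v := by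
    intro u v
    have e1 : ((u, v) : ℂ × ℂ) = (u, 0) + v • (0, 1) := by simp
    rw [e1, map_add, map_smul, h1, smul_eq_mul, mul_comm]
  let A : ℂ × ℂ →L[ℂ] ℂ × ℂ := (ContinuousLinearMap.fst ℂ ℂ ℂ).prod G'
  let B : ℂ × ℂ →L[ℂ] ℂ × ℂ := (ContinuousLinearMap.fst ℂ ℂ ℂ).prod
    (d⁻¹ • (ContinuousLinearMap.snd ℂ ℂ ℂ -
      G'.comp ((ContinuousLinearMap.inl ℂ ℂ ℂ).comp (ContinuousLinearMap.fst ℂ ℂ ℂ))))
  have hAB : Function.LeftInverse B A := by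
    rintro ⟨u, v⟩
    show (u, d⁻¹ * (G' (u, v) - G' (u, 0))) = (u, v)
    rw [h1' u v]
    congr 1
    field_simp
    ring
  have hBA : Function.RightInverse B A := by
    rintro ⟨u, v⟩
    show (u, G' (u, d⁻¹ * (v - G' (u, 0)))) = (u, v)
    rw [h1' u _]
    congr 1
    field_simp
    ring
  let e : (ℂ × ℂ) ≃L[ℂ] (ℂ × ℂ) := ContinuousLinearEquiv.equivOfInverse A B hAB hBA
  let Φ : ℂ × ℂ → ℂ × ℂ := fun p => (p.1, G p)
  have hΦa : AnalyticAt ℂ Φ (x0, X0) := analyticAt_fst.prod hG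
  have hΦd : HasFDerivAt Φ (e : ℂ × ℂ →L[ℂ] ℂ × ℂ) (x0, X0) := hasFDerivAt_fst.prodMk hGd
  have hΦc : ContDiffAt ℂ (⊤ : WithTop ℕ∞) Φ (x0, X0) := hΦa.contDiffAt
  have hn : (⊤ : WithTop ℕ∞) ≠ 0 := by simp
  have hinv := hΦc.to_localInverse hΦd hn
  have hleft := (hΦc.hasStrictFDerivAt' hΦd hn).eventually_left_inverse
  have hΦ0 : Φ (x0, X0) = (x0, 0) := by
    show (x0, G (x0, X0)) = (x0, 0)
    rw [h0]
  rw [hΦ0] at hinv
  refine ⟨fun x => (hΦc.localInverse hΦd hn (x, 0)).2, ?_, ?_⟩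
  · have h4 : AnalyticAt ℂ (hΦc.localInverse hΦd hn) (x0, 0) := hinv.analyticAt
    have h5 : AnalyticAt ℂ (fun x : ℂ => ((x, 0) : ℂ × ℂ)) x0 := analyticAt_id.prod analyticAt_const
    have h6 : AnalyticAt ℂ (fun x : ℂ => hΦc.localInverse hΦd hn (x, 0)) x0 :=
      AnalyticAt.fun_comp (f := fun x : ℂ => ((x, 0) : ℂ × ℂ)) h4 h5
    exact analyticAt_snd.fun_comp h6
  · filter_upwards [hleft] with p hp h7
    have h8 : Φ p = (p.1, 0) := by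
      show (p.1, G p) = (p.1, 0)
      rw [h7]
    rw [h8] at hp
    show p.2 = (hΦc.localInverse hΦd hn (p.1, 0)).2
    exact (congrArg Prod.snd hp).symm

section

variable {W : Type} [NormedAddCommGroup W] [NormedSpace ℂ W] [FiniteDimensional ℂ W]

omit [FiniteDimensional ℂ W] in
theorem mem_of_accPt {U Z : Set W} (hU : IsOpen U) (hZh : hull U Z ⊆ Z) {c : W} (hc : c ∈ U)
    (h : AccPt c (𝓟 Z)) : c ∈ Z := by
  apply hZh
  refine ⟨hc, fun f hf hfz => ?_⟩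
  have hcl : c ∈ closure Z := by
    rw [mem_closure_iff_clusterPt]
    exact h.clusterPt
  have hcont : ContinuousAt f c := (hf.continuousOn c hc).continuousAt (hU.mem_nhds hc)
  have h1 : f c ∈ closure (f '' Z) := by
    exact hcont.continuousWithinAt.mem_closure_image hcl
  have h2 : f '' Z ⊆ {0} := by
    rintro _ ⟨z, hz, rfl⟩
    exact hfz z hz
  have h3 := closure_mono h2 h1
  rw [closure_singleton] at h3
  exact h3

/-- localisation of one coordinate -/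
theorem loc_one {U Z : Set W} (hU : IsOpen U) (hZ : Z ⊆ U) (hZh : hull U Z ⊆ Z)
    (hH : ∀ c ∈ U, ∀ ℓ : W →L[ℂ] ℂ, ℓ ≠ 0 → ¬ AccPt c (𝓟 (Z ∩ {z | ℓ z = ℓ c})))
    (ℓ : W →L[ℂ] ℂ) (hℓ : ℓ ≠ 0) (e : W →L[ℂ] ℂ) {c : W} (hc : c ∈ U) (hcA : AccPt c (𝓟 Z))
    {V : Set W} (hV : V ∈ 𝓝 c) :
    ∃ c1 ∈ V, c1 ∈ U ∧ AccPt c1 (𝓟 Z) ∧ ∃ r : ℂ → ℂ, AnalyticAt ℂ r (ℓ c1) ∧
      ∀ᶠ z in 𝓝 c1, z ∈ U → AccPt z (𝓟 Z) → e z = r (ℓ z) := by
  classical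
  obtain ⟨V1, hV1V, hV1o, hcV1⟩ := _root_.mem_nhds_iff.1 hV
  let Pm : ℕ → Prop := fun m => ∃ c1 ∈ V1, c1 ∈ U ∧ AccPt c1 (𝓟 Z) ∧
    ∃ a : Fin m → ℂ → ℂ, (∀ l, AnalyticAt ℂ (a l) (ℓ c1)) ∧
      ∀ᶠ z in 𝓝 c1, z ∈ U → AccPt z (𝓟 Z) → e z ^ m + ∑ l, a l (ℓ z) * e z ^ (l : ℕ) = 0
  have hex : ∃ m, Pm m := by
    obtain ⟨m, a, ha, hz⟩ := integral_dep ℓ hℓ hU hc hZ hZh hcA (hH c hc ℓ hℓ) (fun z => e z)
      e.contDiff.contDiffOn
    refine ⟨m, c, hcV1, hc, hcA, a, ha, ?_⟩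
    filter_upwards [hz] with z h1 h2 h3
    exact h1 (mem_of_accPt hU hZh h2 h3)
  have hmin : ∀ m, m < Nat.find hex → ¬ Pm m := fun m hm => Nat.find_min hex hm
  obtain ⟨c1, hc1V, hc1U, hc1A, a, ha, hrel⟩ := Nat.find_spec hex
  generalize hmm : Nat.find hex = m at hmin a ha hrel
  cases m with
  | zero =>
    exfalso
    have h1 := hrel.self_of_nhds hc1U hc1A
    simp at h1
  | succ k =>
    -- the derivative polynomial
    have hfreq : ∃ᶠ z in 𝓝 c1, z ∈ U ∧ AccPt z (𝓟 Z) ∧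
        (k + 1 : ℂ) * e z ^ k + ∑ l : Fin k, ((l : ℕ) + 1 : ℂ) * a l.succ (ℓ z) * e z ^ (l : ℕ) ≠ 0 := by
      by_contra hne
      rw [not_frequently] at hne
      apply hmin k (lt_add_one k)
      refine ⟨c1, hc1V, hc1U, hc1A, fun l x => (((l : ℕ) + 1 : ℂ) / (k + 1 : ℂ)) * a l.succ x, ?_, ?_⟩
      · intro l
        exact analyticAt_const.mul (ha l.succ)
      · filter_upwards [hne] with z h1 h2 h3
        have h4 : (k + 1 : ℂ) * e z ^ k + ∑ l : Fin k, ((l : ℕ) + 1 : ℂ) * a l.succ (ℓ z) * e z ^ (l : ℕ) = 0 := by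
          by_contra hc
          exact h1 ⟨h2, h3, hc⟩
        have hk : (k + 1 : ℂ) ≠ 0 := by exact_mod_cast Nat.succ_ne_zero k
        have h5 : (k + 1 : ℂ) * (e z ^ k + ∑ l : Fin k,
            (((l : ℕ) + 1 : ℂ) / (k + 1 : ℂ)) * a l.succ (ℓ z) * e z ^ (l : ℕ)) = 0 := by
          rw [mul_add, Finset.mul_sum, ← h4]
          congr 1
          refine Finset.sum_congr rfl fun l _ => ?_
          field_simp
        exact (mul_eq_zero.1 h5).resolve_left hk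
    have hev1 : ∀ᶠ z in 𝓝 c1, ∀ᶠ w in 𝓝 z, w ∈ U → AccPt w (𝓟 Z) →
        e w ^ (k + 1) + ∑ l, a l (ℓ w) * e w ^ (l : ℕ) = 0 := eventually_eventually_nhds.2 hrel
    have hev2 : ∀ᶠ z in 𝓝 c1, ∀ l, AnalyticAt ℂ (a l) (ℓ z) := by
      rw [eventually_all]
      intro l
      exact ℓ.continuous.continuousAt.eventually (ha l).eventually_analyticAt
    obtain ⟨c2, ⟨hc2U, hc2A, hc2d⟩, hc2r, hc2a, hc2V⟩ :=
      (hfreq.and_eventually (hev1.and (hev2.and (hV1o.mem_nhds hc1V)))).exists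
    -- implicit function
    let G : ℂ × ℂ → ℂ := fun p => p.2 ^ (k + 1) + ∑ l, a l p.1 * p.2 ^ (l : ℕ)
    have hGa : AnalyticAt ℂ G (ℓ c2, e c2) := by
      apply AnalyticAt.add
      · exact analyticAt_snd.pow _
      · apply Finset.analyticAt_fun_sum
        intro l _
        apply AnalyticAt.mul
        · exact AnalyticAt.fun_comp (hc2a l) analyticAt_fst
        · exact analyticAt_snd.pow _
    have hG0 : G (ℓ c2, e c2) = 0 := hc2r.self_of_nhds hc2U hc2A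
    have hGd : HasDerivAt (fun X => G (ℓ c2, X)) ((k + 1 : ℂ) * e c2 ^ k +
        ∑ l : Fin k, ((l : ℕ) + 1 : ℂ) * a l.succ (ℓ c2) * e c2 ^ (l : ℕ)) (e c2) := by
      have d1 : HasDerivAt (fun X : ℂ => X ^ (k + 1)) ((k + 1 : ℂ) * e c2 ^ k) (e c2) := by
        have := hasDerivAt_pow (k + 1) (e c2)
        simpa using this
      have d2 : HasDerivAt (fun X : ℂ => ∑ l : Fin (k + 1), a l (ℓ c2) * X ^ (l : ℕ))
          (∑ l : Fin (k + 1), a l (ℓ c2) * ((l : ℕ) * e c2 ^ ((l : ℕ) - 1))) (e c2) := by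
        apply HasDerivAt.fun_sum
        intro l _
        exact (hasDerivAt_pow (l : ℕ) (e c2)).const_mul _
      have d3 : ∑ l : Fin (k + 1), a l (ℓ c2) * ((l : ℕ) * e c2 ^ ((l : ℕ) - 1)) =
          ∑ l : Fin k, ((l : ℕ) + 1 : ℂ) * a l.succ (ℓ c2) * e c2 ^ (l : ℕ) := by
        rw [Fin.sum_univ_succ]
        simp only [Fin.val_zero, Nat.cast_zero, zero_mul, mul_zero, zero_add, Fin.val_succ,
          Nat.add_sub_cancel, Nat.cast_add, Nat.cast_one]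
        refine Finset.sum_congr rfl fun l _ => ?_
        ring
      rw [d3] at d2
      exact d1.add d2
    obtain ⟨r, hr1, hr2⟩ := implicit_aux G _ _ hGa hG0 _ hGd hc2d
    refine ⟨c2, hV1V hc2V, hc2U, hc2A, r, hr1, ?_⟩
    have hcont : ContinuousAt (fun z : W => (ℓ z, e z)) c2 := by fun_prop
    filter_upwards [hc2r, hcont.eventually hr2] with z h1 h2 h3 h4
    exact h2 (h1 h3 h4)

/-- localisation of finitely many coordinates -/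
theorem loc_many {U Z : Set W} (hU : IsOpen U) (hZ : Z ⊆ U) (hZh : hull U Z ⊆ Z)
    (hH : ∀ c ∈ U, ∀ ℓ : W →L[ℂ] ℂ, ℓ ≠ 0 → ¬ AccPt c (𝓟 (Z ∩ {z | ℓ z = ℓ c})))
    (ℓ : W →L[ℂ] ℂ) (hℓ : ℓ ≠ 0) (e : ℕ → W →L[ℂ] ℂ) (N : ℕ) {c : W} (hc : c ∈ U)
    (hcA : AccPt c (𝓟 Z)) {V : Set W} (hV : V ∈ 𝓝 c) :
    ∃ c1 ∈ V, c1 ∈ U ∧ AccPt c1 (𝓟 Z) ∧ ∃ r : ℕ → ℂ → ℂ, (∀ i < N, AnalyticAt ℂ (r i) (ℓ c1)) ∧
      ∀ᶠ z in 𝓝 c1, z ∈ U → AccPt z (𝓟 Z) → ∀ i < N, e i z = r i (ℓ z) := by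
  classical
  induction N generalizing V with
  | zero =>
    refine ⟨c, mem_of_mem_nhds hV, hc, hcA, fun _ _ => 0, ?_, ?_⟩
    · intro i hi
      omega
    · filter_upwards with z _ _ i hi
      omega
  | succ N ih =>
    obtain ⟨V1, hV1V, hV1o, hcV1⟩ := _root_.mem_nhds_iff.1 hV
    obtain ⟨c1, hc1V, hc1U, hc1A, r, hr, hrel⟩ := ih (hV1o.mem_nhds hcV1)
    have hev1 : ∀ᶠ z in 𝓝 c1, ∀ᶠ w in 𝓝 z, w ∈ U → AccPt w (𝓟 Z) → ∀ i < N, e i w = r i (ℓ w) :=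
      eventually_eventually_nhds.2 hrel
    have hev2 : ∀ᶠ z in 𝓝 c1, ∀ i ∈ Finset.range N, AnalyticAt ℂ (r i) (ℓ z) := by
      rw [Filter.eventually_all_finset]
      intro i hi
      exact ℓ.continuous.continuousAt.eventually (hr i (Finset.mem_range.1 hi)).eventually_analyticAt
    obtain ⟨c2, hc2V, hc2U, hc2A, rN, hrN, hrelN⟩ := loc_one hU hZ hZh hH ℓ hℓ (e N) hc1U hc1A
      (V := {z | (∀ᶠ w in 𝓝 z, w ∈ U → AccPt w (𝓟 Z) → ∀ i < N, e i w = r i (ℓ w)) ∧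
        (∀ i ∈ Finset.range N, AnalyticAt ℂ (r i) (ℓ z)) ∧ z ∈ V1})
      (hev1.and (hev2.and (hV1o.mem_nhds hc1V)))
    obtain ⟨h1, h2, h3⟩ := hc2V
    refine ⟨c2, hV1V h3, hc2U, hc2A, fun i => if i = N then rN else r i, ?_, ?_⟩
    · intro i hi
      by_cases hiN : i = N
      · simpa [hiN] using hrN
      · simpa [hiN] using h2 i (Finset.mem_range.2 (by omega))
    · filter_upwards [h1, hrelN] with z h4 h5 h6 h7 i hi
      by_cases hiN : i = N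
      · subst hiN
        simpa using h5 h6 h7
      · simpa [hiN] using h4 h6 h7 i (by omega)

end

/-- a zero set whose hyperplane sections are discrete contains analytic arcs -/
theorem exists_arc {W : Type} [NormedAddCommGroup W] [NormedSpace ℂ W] [FiniteDimensional ℂ W]
    [Nontrivial W] {U Z : Set W} {b : W} (hU : IsOpen U) (hb : b ∈ U)
    (hZ : Z ⊆ U) (hZh : hull U Z ⊆ Z) (hacc : AccPt b (𝓟 Z))
    (hH : ∀ c ∈ U, ∀ ℓ : W →L[ℂ] ℂ, ℓ ≠ 0 → ¬ AccPt c (𝓟 (Z ∩ {z | ℓ z = ℓ c})))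
    {V : Set W} (hV : V ∈ 𝓝 b) :
    ∃ (γ : ℂ → W) (t₀ : ℂ) (ℓ : W →L[ℂ] ℂ), AnalyticAt ℂ γ t₀ ∧ γ t₀ ∈ V ∧
      ∀ᶠ t in 𝓝 t₀, γ t ∈ Z ∧ ℓ (γ t) = t := by
  classical
  obtain ⟨ℓ, hℓ⟩ : ∃ ℓ : W →L[ℂ] ℂ, ℓ ≠ 0 := by
    obtain ⟨x, hx⟩ := exists_ne (0 : W)
    obtain ⟨g, hg1, hg2⟩ := exists_dual_vector ℂ x (norm_ne_zero_iff.2 hx)
    refine ⟨g, ?_⟩
    intro h0
    rw [h0] at hg1
    simp at hg1
  let B := Module.finBasis ℂ W
  let N := Module.finrank ℂ W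
  let e : ℕ → W →L[ℂ] ℂ := fun i =>
    if h : i < N then LinearMap.toContinuousLinearMap (B.coord ⟨i, h⟩) else 0
  obtain ⟨c, hcV, hcU, hcA, r, hr, hrel⟩ := loc_many hU hZ hZh hH ℓ hℓ e N hb hacc hV
  let γ : ℂ → W := fun x => ∑ i : Fin N, r i x • B i
  have hγ : AnalyticAt ℂ γ (ℓ c) := by
    apply Finset.analyticAt_fun_sum
    intro i _
    exact (hr i i.2).smul analyticAt_const
  have hrel' : ∀ᶠ z in 𝓝 c, z ∈ U → AccPt z (𝓟 Z) → z = γ (ℓ z) := by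
    filter_upwards [hrel] with z h1 h2 h3
    have h4 := h1 h2 h3
    show z = ∑ i : Fin N, r i (ℓ z) • B i
    conv_lhs => rw [← B.sum_repr z]
    refine Finset.sum_congr rfl fun i _ => ?_
    congr 1
    have h5 := h4 i i.2
    rw [← h5]
    have hiN : (i : ℕ) < N := i.2
    simp only [e, dif_pos hiN]
    simp
  have hZU : hull U Z = Z := by
    apply Subset.antisymm hZh
    intro z hz
    exact ⟨hZ hz, fun f _ h0 => h0 z hz⟩
  have hiso : ¬ AccPt c (𝓟 (hull U Z ∩ {z | ℓ z = ℓ c})) := by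
    rw [hZU]
    exact hH c hcU ℓ hℓ
  have hpr := proj ℓ hℓ hU hcU hZ hcA hiso (V := {z | z ∈ U → AccPt z (𝓟 Z) → z = γ (ℓ z)}) hrel'
  rw [hZU] at hpr
  refine ⟨γ, ℓ c, ℓ, hγ, ?_, ?_⟩
  · have := hrel'.self_of_nhds hcU hcA
    rw [← this]
    exact hcV
  · have ht : Tendsto (fun t : ℂ => t - ℓ c) (𝓝 (ℓ c)) (𝓝 0) := by
      have : ContinuousAt (fun t : ℂ => t - ℓ c) (ℓ c) := by fun_prop
      have h := this.tendsto
      simpa using h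
    filter_upwards [ht.eventually hpr] with t h1
    obtain ⟨z, ⟨hzZ, hzV⟩, hz2, hz3⟩ := h1
    have h5 : z = γ (ℓ z) := hzV (hZ hzZ) hz3
    have h6 : ℓ z = t := by rw [hz2]; ring
    rw [h6] at h5
    rw [← h5]
    exact ⟨hzZ, h6⟩

end R6308

export R6308 (exists_arc)

end PFrame
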