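import Pool.Agent.Helper237.PF.Defs

set_option autoImplicit false

open Metric Set Filter Topology

namespace PFrame

variable {W : Type} [NormedAddCommGroup W] [InnerProductSpace ℂ W]
variable {E : Type} [NormedAddCommGroup E] [InnerProductSpace ℂ E]

/-- homogeneous coordinates of a point of the chart -/
noncomputable def hom (u : W) : WithLp 2 (ℂ × W) := WithLp.toLp 2 ((1 : ℂ), u)

/-- a pair of positive semidefinite germs `S`, `Y` in relative position `A` -/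
structure GoodP (p : ℝ) (a b : ℕ) (v : W → E) (J : E →L[ℂ] E)
    (A : WithLp 2 (ℂ × W) →L[ℂ] WithLp 2 (ℂ × W)) (S Y : Set W) (T : E →L[ℂ] E) : Prop where
  subS : S ⊆ ball 0 1
  subY : Y ⊆ ball 0 1
  accS : AccPt 0 (𝓟 S)
  accY : AccPt 0 (𝓟 Y)
  pdS : PD p S
  pdY : PD p Y
  iso : ∀ x, ‖A x‖ = ‖x‖
  bound : ∀ x ∈ Submodule.span ℂ (v '' S), ∀ y ∈ Submodule.span ℂ (v '' Y),
    ‖inner ℂ y (T x)‖ ^ 2 ≤ (inner ℂ x (J x)).re * (inner ℂ y (J y)).re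
  rel : ∀ s ∈ S, ∀ η ∈ Y, (inner ℂ (v η) (T (v s))) ^ b = (inner ℂ (hom η) (A (hom s))) ^ a
  nrm : ‖T‖ ≤ ‖J‖

/-- weight of the change of centre -/
noncomputable def kap (p : ℝ) (b u : W) : ℂ :=
  (((1 + ‖b‖ ^ 2) ^ (p / 2) : ℝ) : ℂ) * (1 + inner ℂ b u) ^ (-(p : ℂ))

end PFrame
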