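import Pool.Agent.Helper237.PR.Defs

set_option autoImplicit false

open Metric Set Filter Topology

namespace PFrame

namespace R6313

/-- transport of a bounded sesquilinear form -/
theorem ext_op {V E : Type} [AddCommGroup V] [Module ℂ V] [NormedAddCommGroup E]
    [InnerProductSpace ℂ E] [CompleteSpace E] (Φ Ψ : V →ₗ[ℂ] E) (T : E →L[ℂ] E)
    (N : Submodule ℂ E) (C : ℝ) (hC : 0 ≤ C)
    (h : ∀ a : V, ∀ y ∈ N, ‖inner ℂ y (T (Ψ a))‖ ≤ C * ‖Φ a‖ * ‖y‖) :
    ∃ T' : E →L[ℂ] E, ‖T'‖ ≤ C ∧ ∀ a, ∀ y ∈ N, inner ℂ y (T' (Φ a)) = inner ℂ y (T (Ψ a)) := by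
  let K : Submodule ℂ E := N.topologicalClosure
  haveI : CompleteSpace K := (Submodule.isClosed_topologicalClosure N).completeSpace_coe
  have hNK : N ≤ K := Submodule.le_topologicalClosure N
  let P : E →L[ℂ] E := K.starProjection
  have hP : ∀ y ∈ K, ∀ w, inner ℂ y (P w) = inner ℂ y w := by
    intro y hy w
    have h1 : inner ℂ (K.starProjection y) w = inner ℂ y (K.starProjection w) :=
      Submodule.inner_starProjection_left_eq_right K y w
    rw [Submodule.starProjection_eq_self_iff.2 hy] at h1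
    exact h1.symm
  have hPm : ∀ w, P w ∈ K := fun w => Submodule.starProjection_apply_mem K w
  have hK : ∀ a : V, ∀ y ∈ K, ‖inner ℂ y (T (Ψ a))‖ ≤ C * ‖Φ a‖ * ‖y‖ := by
    intro a y hy
    have hcl : IsClosed {y : E | ‖inner ℂ y (T (Ψ a))‖ ≤ C * ‖Φ a‖ * ‖y‖} :=
      isClosed_le (by fun_prop) (by fun_prop)
    exact closure_minimal (fun y hy => h a y hy) hcl hy
  let f : V →ₗ[ℂ] E := (P.comp T).toLinearMap.comp Ψ
  have hf : ∀ a, f a = P (T (Ψ a)) := fun a => rfl
  let K1 : Submodule ℂ E := (LinearMap.range Φ).topologicalClosure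
  haveI : CompleteSpace K1 := (Submodule.isClosed_topologicalClosure _).completeSpace_coe
  have hmem : ∀ a, Φ a ∈ K1 := fun a =>
    Submodule.le_topologicalClosure _ (LinearMap.mem_range_self Φ a)
  let e : V →ₗ[ℂ] K1 := Φ.codRestrict K1 hmem
  have he : ∀ a, (e a : E) = Φ a := fun a => rfl
  have hfb : ∀ a, ‖f a‖ ≤ C * ‖e a‖ := by
    intro a
    have h1 := hK a (f a) (hPm _)
    have h2 : inner ℂ (f a) (T (Ψ a)) = inner ℂ (f a) (f a) := by
      rw [← hP (f a) (hPm _) (T (Ψ a))]; rfl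
    rw [h2, inner_self_eq_norm_sq_to_K] at h1
    have h3 : ‖((‖f a‖ : ℂ)) ^ 2‖ = ‖f a‖ ^ 2 := by simp
    have h4 : ‖f a‖ ^ 2 ≤ C * ‖Φ a‖ * ‖f a‖ := by
      rw [← h3]; exact h1
    have h5 : ‖e a‖ = ‖Φ a‖ := rfl
    rw [h5]
    rcases (norm_nonneg (f a)).eq_or_lt with h0 | h0
    · rw [← h0]; positivity
    · have h6 : ‖f a‖ * ‖f a‖ ≤ (C * ‖Φ a‖) * ‖f a‖ := by rw [← sq]; exact h4
      exact le_of_mul_le_mul_right h6 h0
  have hdense : DenseRange e := by
    intro x
    rw [mem_closure_iff_seq_limit] at *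
    have hx : (x : E) ∈ closure (LinearMap.range Φ : Set E) := x.2
    rw [mem_closure_iff_seq_limit] at hx
    obtain ⟨u, hu, hux⟩ := hx
    choose v hv using hu
    refine ⟨fun n => e (v n), fun n => ⟨v n, rfl⟩, ?_⟩
    rw [tendsto_subtype_rng]
    have : (fun n => ((e (v n) : K1) : E)) = u := by
      funext n; exact hv n
    rw [this]; exact hux
  refine ⟨(f.extendOfNorm e).comp (K1.orthogonalProjectionOnto), ?_, ?_⟩
  · refine (ContinuousLinearMap.opNorm_comp_le _ _).trans ?_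
    have h1 := LinearMap.opNorm_extendOfNorm_le hdense hC hfb
    have h2 : ‖K1.orthogonalProjectionOnto‖ ≤ 1 := Submodule.orthogonalProjectionOnto_norm_le K1
    calc ‖f.extendOfNorm e‖ * ‖K1.orthogonalProjectionOnto‖ ≤ C * 1 := by gcongr
      _ = C := mul_one C
  · intro a y hy
    have h1 : K1.orthogonalProjectionOnto (Φ a) = e a := by
      have := Submodule.orthogonalProjectionOnto_mem_subspace_eq_self (e a)
      exact this
    rw [ContinuousLinearMap.comp_apply, h1, LinearMap.extendOfNorm_eq hdense ⟨C, hfb⟩, hf]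
    exact hP y (hNK hy) _

end R6313

export R6313 (ext_op)

end PFrame
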