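import Pool.Agent.Helper237.PR.Defs

set_option autoImplicit false

open Metric Set Filter Topology

namespace PFrame

namespace R6316

section kernel

variable {W : Type} [NormedAddCommGroup W] [InnerProductSpace ℂ W]

variable {E : Type} [NormedAddCommGroup E] [InnerProductSpace ℂ E]

end kernel

section generalW

variable {W : Type} [NormedAddCommGroup W] [InnerProductSpace ℂ W]
  {E : Type} [NormedAddCommGroup E] [InnerProductSpace ℂ E]
  {p : ℝ} {a b : ℕ} {v : W → E} {J : E →L[ℂ] E}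

/-- the change of centre is induced by a unitary map of homogeneous coordinates -/
theorem chart_isometry (c : W) :
    ∃ Q : WithLp 2 (ℂ × W) →L[ℂ] WithLp 2 (ℂ × W), (∀ x, ‖Q x‖ = ‖x‖) ∧
      ∀ u, 1 + inner ℂ c u ≠ 0 →
        Q (hom (tau c u)) = (((Real.sqrt (1 + ‖c‖ ^ 2) : ℝ) : ℂ) / (1 + inner ℂ c u)) • hom u := by
  set s : ℝ := Real.sqrt (1 + ‖c‖ ^ 2) with hsdef
  have hs2 : s ^ 2 = 1 + ‖c‖ ^ 2 := Real.sq_sqrt (by positivity)
  have hs0 : 0 < s := Real.sqrt_pos.2 (by positivity)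
  have hs1 : 0 < 1 + s := by linarith
  have hsC : (s : ℂ) ≠ 0 := by exact_mod_cast hs0.ne'
  have hs1C : (1 + (s : ℂ)) ≠ 0 := by exact_mod_cast hs1.ne'
  have hcc : inner ℂ c c = ((s : ℂ) ^ 2 - 1) := by
    rw [inner_self_eq_norm_sq_to_K]
    have : ((‖c‖ : ℂ)) ^ 2 = ((‖c‖ ^ 2 : ℝ) : ℂ) := by push_cast; rfl
    have h2 : ‖c‖ ^ 2 = s ^ 2 - 1 := by linarith
    show ((‖c‖ : ℂ)) ^ 2 = _
    rw [this, h2]
    push_cast
    rfl
  let e := WithLp.prodContinuousLinearEquiv 2 ℂ ℂ W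
  let φ : ℂ × W →L[ℂ] ℂ := (innerSL ℂ c).comp (ContinuousLinearMap.snd ℂ ℂ W)
  let L1 : ℂ × W →L[ℂ] ℂ := (s : ℂ)⁻¹ • (ContinuousLinearMap.fst ℂ ℂ W - φ)
  let L2 : ℂ × W →L[ℂ] W := (s : ℂ)⁻¹ • ((ContinuousLinearMap.fst ℂ ℂ W).smulRight c +
    (s : ℂ) • ContinuousLinearMap.snd ℂ ℂ W - ((1 + (s : ℂ))⁻¹ • φ).smulRight c)
  have hL1 : ∀ t w, L1 (t, w) = (s : ℂ)⁻¹ * (t - inner ℂ c w) := fun t w => by
    simp [L1, φ]
  have hL2 : ∀ t w, L2 (t, w) = (s : ℂ)⁻¹ • (t • c + (s : ℂ) • w -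
      ((1 + (s : ℂ))⁻¹ * inner ℂ c w) • c) := fun t w => by
    simp [L2, φ]
  let Q : WithLp 2 (ℂ × W) →L[ℂ] WithLp 2 (ℂ × W) :=
    (e.symm : ℂ × W →L[ℂ] WithLp 2 (ℂ × W)).comp ((L1.prod L2).comp
      (e : WithLp 2 (ℂ × W) →L[ℂ] ℂ × W))
  have hQ : ∀ t w, Q (WithLp.toLp 2 (t, w)) = WithLp.toLp 2 (L1 (t, w), L2 (t, w)) :=
    fun t w => rfl
  refine ⟨Q, ?_, ?_⟩
  · intro x
    obtain ⟨t, w, rfl⟩ : ∃ t w, x = WithLp.toLp 2 (t, w) := ⟨x.ofLp.1, x.ofLp.2, rfl⟩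
    rw [← sq_eq_sq₀ (norm_nonneg _) (norm_nonneg _), hQ, WithLp.prod_norm_sq_eq_of_L2,
      WithLp.prod_norm_sq_eq_of_L2]
    show ‖L1 (t, w)‖ ^ 2 + ‖L2 (t, w)‖ ^ 2 = ‖t‖ ^ 2 + ‖w‖ ^ 2
    rw [hL1, hL2]
    set k : ℂ := inner ℂ c w with hk
    set α : ℂ := t - (1 + (s : ℂ))⁻¹ * k with hα
    have e1 : t • c + (s : ℂ) • w - ((1 + (s : ℂ))⁻¹ * k) • c = α • c + (s : ℂ) • w := by
      rw [hα, sub_smul]; abel
    rw [e1, norm_mul, norm_smul, mul_pow, mul_pow, norm_inv, Complex.norm_real,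
      Real.norm_of_nonneg hs0.le]
    have e2 : ‖α • c + (s : ℂ) • w‖ ^ 2 = ‖α‖ ^ 2 * (s ^ 2 - 1) +
        2 * s * ((starRingEnd ℂ) α * k).re + s ^ 2 * ‖w‖ ^ 2 := by
      rw [norm_add_sq (𝕜 := ℂ), norm_smul, norm_smul, inner_smul_left, inner_smul_right, mul_pow,
        mul_pow, Complex.norm_real, Real.norm_of_nonneg hs0.le]
      have h2 : ‖c‖ ^ 2 = s ^ 2 - 1 := by linarith
      rw [h2, ← hk]
      have h3 : RCLike.re ((starRingEnd ℂ) α * ((s : ℂ) * k)) = s * ((starRingEnd ℂ) α * k).re := by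
        have : (starRingEnd ℂ) α * ((s : ℂ) * k) = (s : ℂ) * ((starRingEnd ℂ) α * k) := by ring
        rw [this]
        show ((s : ℂ) * ((starRingEnd ℂ) α * k)).re = _
        rw [Complex.re_ofReal_mul]
      rw [h3]
      ring
    rw [e2]
    have hαre : α.re = t.re - k.re / (1 + s) := by
      have : α = t - k / ((1 + s : ℝ) : ℂ) := by
        rw [hα]; push_cast; rw [div_eq_inv_mul]
      rw [this, Complex.sub_re, Complex.div_ofReal_re]
    have hαim : α.im = t.im - k.im / (1 + s) := by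
      have : α = t - k / ((1 + s : ℝ) : ℂ) := by
        rw [hα]; push_cast; rw [div_eq_inv_mul]
      rw [this, Complex.sub_im, Complex.div_ofReal_im]
    rw [Complex.sq_norm, Complex.sq_norm, Complex.sq_norm, Complex.normSq_apply,
      Complex.normSq_apply, Complex.normSq_apply, Complex.mul_re, Complex.conj_re,
      Complex.conj_im, hαre, hαim, Complex.sub_re, Complex.sub_im]
    field_simp
    ring
  · intro u hu
    have h1 : hom (tau c u) = WithLp.toLp 2 ((1 : ℂ), tau c u) := rfl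
    have h2 : (((s : ℝ) : ℂ) / (1 + inner ℂ c u)) • hom u =
        WithLp.toLp 2 ((((s : ℝ) : ℂ) / (1 + inner ℂ c u)) * 1,
          (((s : ℝ) : ℂ) / (1 + inner ℂ c u)) • u) := rfl
    rw [h1, h2, hQ]
    have htau : tau c u = (1 + inner ℂ c u)⁻¹ • ((s : ℂ) • u -
      (1 + inner ℂ c u / (1 + (s : ℂ))) • c) := rfl
    have hin : inner ℂ c (tau c u) = (1 + inner ℂ c u)⁻¹ * (inner ℂ c u - (s : ℂ) ^ 2 + 1) := by
      rw [htau, inner_smul_right, inner_sub_right, inner_smul_right, inner_smul_right, hcc]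
      field_simp
      ring
    rw [hL1, hL2, hin, htau]
    generalize inner ℂ c u = k at *
    congr 1
    refine Prod.ext ?_ ?_
    · show (s : ℂ)⁻¹ * (1 - (1 + k)⁻¹ * (k - (s : ℂ) ^ 2 + 1)) = (s : ℂ) / (1 + k) * 1
      field_simp
      ring
    · show (s : ℂ)⁻¹ • ((1 : ℂ) • c + (s : ℂ) • ((1 + k)⁻¹ • ((s : ℂ) • u - (1 + k / (1 + (s : ℂ))) • c)) -
        ((1 + (s : ℂ))⁻¹ * ((1 + k)⁻¹ * (k - (s : ℂ) ^ 2 + 1))) • c) = ((s : ℂ) / (1 + k)) • u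
      match_scalars
      · field_simp
        ring
      · field_simp

end generalW

end R6316

export R6316 (chart_isometry)

end PFrame
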