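import Pool.Agent.Helper237.PR.Defs

set_option autoImplicit false

open Metric Set Filter Topology

namespace PFrame

namespace R6309

/-- at some point of `D` no nonzero member of an `n`-dimensional space of analytic functions
vanishes to order `n` -/
theorem order_generic (n : ℕ) : ∀ (D : Set ℂ), IsOpen D → IsPreconnected D → D.Nonempty →
    ∀ g : Fin n → ℂ → ℂ, (∀ i, AnalyticOnNhd ℂ (g i) D) →
    (∀ c : Fin n → ℂ, (∀ t ∈ D, ∑ i, c i * g i t = 0) → c = 0) →
    ∃ t ∈ D, ∀ c : Fin n → ℂ,
      (n : ℕ∞) ≤ analyticOrderAt (fun t => ∑ i, c i * g i t) t → c = 0 := by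
  induction n with
  | zero =>
    intro D _ _ hne g _ _
    obtain ⟨t, ht⟩ := hne
    exact ⟨t, ht, fun c _ => Subsingleton.elim _ _⟩
  | succ n ih =>
    intro D hDo hDc hDne g hg hli
    -- a point where g 0 is nonzero
    have hex : ∃ t0 ∈ D, g 0 t0 ≠ 0 := by
      by_contra hcon
      push Not at hcon
      have h1 := hli (Pi.single 0 1) (by
        intro t ht
        rw [Finset.sum_eq_single 0]
        · rw [hcon t ht, mul_zero]
        · intro i _ hi
          rw [Pi.single_eq_of_ne hi, zero_mul]
        · intro h; exact absurd (Finset.mem_univ _) h)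
      have h2 := congrFun h1 0
      rw [Pi.single_eq_same] at h2
      exact one_ne_zero h2
    obtain ⟨t0, ht0, hg0⟩ := hex
    have hcont : ContinuousAt (g 0) t0 := (hg 0 t0 ht0).continuousAt
    have hnz : ∀ᶠ t in 𝓝 t0, g 0 t ≠ 0 := hcont.eventually_ne hg0
    have hDn : D ∈ 𝓝 t0 := hDo.mem_nhds ht0
    obtain ⟨r, hr, hball⟩ := Metric.mem_nhds_iff.mp (Filter.inter_mem hDn hnz)
    have hsub : ball t0 r ⊆ D := fun t ht => (hball ht).1
    have hnz' : ∀ t ∈ ball t0 r, g 0 t ≠ 0 := fun t ht => (hball ht).2
    have hquo : ∀ i : Fin n, AnalyticOnNhd ℂ (fun t => g i.succ t / g 0 t) (ball t0 r) := by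
      intro i t ht
      exact (hg i.succ t (hsub ht)).div (hg 0 t (hsub ht)) (hnz' t ht)
    have hh : ∀ i : Fin n, AnalyticOnNhd ℂ (deriv (fun t => g i.succ t / g 0 t)) (ball t0 r) :=
      fun i => (hquo i).deriv
    have hderivF : ∀ (c : Fin n → ℂ) (k : ℂ), ∀ t ∈ ball t0 r,
        HasDerivAt (fun t => k + ∑ i, c i * (g i.succ t / g 0 t))
          (∑ i, c i * deriv (fun t => g i.succ t / g 0 t) t) t := by
      intro c k t ht
      have h1 : ∀ i ∈ (Finset.univ : Finset (Fin n)), HasDerivAt (fun t => c i * (g i.succ t / g 0 t))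
          (c i * deriv (fun t => g i.succ t / g 0 t) t) t := by
        intro i _
        exact ((hquo i t ht).differentiableAt.hasDerivAt).const_mul (c i)
      exact (HasDerivAt.fun_sum h1).const_add k
    have hli' : ∀ c : Fin n → ℂ, (∀ t ∈ ball t0 r, ∑ i, c i * deriv (fun t => g i.succ t / g 0 t) t = 0) → c = 0 := by
      intro c hc
      set F : ℂ → ℂ := fun t => 0 + ∑ i, c i * (g i.succ t / g 0 t) with hF
      have hconst : ∀ t ∈ ball t0 r, F t = F t0 := by
        intro t ht
        apply isOpen_ball.is_const_of_deriv_eq_zero (convex_ball t0 r).isPreconnected _ _ ht (mem_ball_self hr)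
        · intro s hs
          exact (hderivF c 0 s hs).differentiableAt.differentiableWithinAt
        · intro s hs
          rw [(hderivF c 0 s hs).deriv, hc s hs]
          rfl
      set c' : Fin (n + 1) → ℂ := Fin.cons (-(F t0)) c with hc'
      have hsum : ∀ t, ∑ i, c' i * g i t = -(F t0) * g 0 t + ∑ i : Fin n, c i * g i.succ t := by
        intro t
        rw [Fin.sum_univ_succ]
        simp [hc']
      have hzero : ∀ t ∈ ball t0 r, ∑ i, c' i * g i t = 0 := by
        intro t ht
        rw [hsum, ← hconst t ht]
        have h1 : F t * g 0 t = ∑ i : Fin n, c i * g i.succ t := by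
          simp only [hF, zero_add]
          rw [Finset.sum_mul]
          apply Finset.sum_congr rfl
          intro i _
          have := hnz' t ht
          field_simp
        rw [neg_mul, h1]
        ring
      have hana : AnalyticOnNhd ℂ (fun t => ∑ i, c' i * g i t) D := by
        intro t ht
        apply Finset.analyticAt_fun_sum
        intro i _
        exact analyticAt_const.mul (hg i t ht)
      have hEq := hana.eqOn_zero_of_preconnected_of_eventuallyEq_zero hDc ht0 (by
        filter_upwards [ball_mem_nhds t0 hr] with t ht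
        exact hzero t ht)
      have h2 := hli c' (fun t ht => hEq ht)
      funext i
      have h3 := congrFun h2 i.succ
      simpa [hc'] using h3
    obtain ⟨t1, ht1, hord⟩ := ih (ball t0 r) isOpen_ball (convex_ball t0 r).isPreconnected
      ⟨t0, mem_ball_self hr⟩ (fun i => deriv (fun t => g i.succ t / g 0 t)) hh hli'
    refine ⟨t1, hsub ht1, ?_⟩
    intro c hc
    have hana1 : AnalyticAt ℂ (fun t => ∑ i, c i * g i t) t1 := by
      apply Finset.analyticAt_fun_sum
      intro i _
      exact analyticAt_const.mul (hg i t1 (hsub ht1))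
    obtain ⟨K, hK, hKeq⟩ := (natCast_le_analyticOrderAt hana1).mp hc
    have hg0a : AnalyticAt ℂ (g 0) t1 := hg 0 t1 (hsub ht1)
    have hg0n : g 0 t1 ≠ 0 := hnz' t1 ht1
    set K' : ℂ → ℂ := fun z => K z / g 0 z with hK'
    have hK'a : AnalyticAt ℂ K' t1 := hK.div hg0a hg0n
    -- the quotient
    have hFeq : (fun z => c 0 + ∑ i : Fin n, c i.succ * (g i.succ z / g 0 z)) =ᶠ[𝓝 t1]
        fun z => (z - t1) ^ (n + 1) * K' z := by
      filter_upwards [hKeq, isOpen_ball.mem_nhds ht1] with z hz hzb
      have hz0 := hnz' z hzb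
      rw [Fin.sum_univ_succ, smul_eq_mul] at hz
      have h1 : c 0 + ∑ i : Fin n, c i.succ * (g i.succ z / g 0 z) =
          (c 0 * g 0 z + ∑ i : Fin n, c i.succ * g i.succ z) / g 0 z := by
        rw [add_div, Finset.sum_div, mul_div_cancel_right₀ _ hz0]
        congr 1
        apply Finset.sum_congr rfl
        intro i _
        rw [mul_div_assoc]
      rw [h1, hz]
      simp only [hK']
      rw [mul_div_assoc]
    have hc1 : (fun i : Fin n => c i.succ) = 0 := by
      apply hord
      have hana2 : AnalyticAt ℂ (fun t => ∑ i : Fin n, c i.succ * deriv (fun t => g i.succ t / g 0 t) t) t1 := by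
        apply Finset.analyticAt_fun_sum
        intro i _
        exact analyticAt_const.mul (hh i t1 ht1)
      rw [natCast_le_analyticOrderAt hana2]
      refine ⟨fun z => ((n : ℂ) + 1) * K' z + (z - t1) * deriv K' z, ?_, ?_⟩
      · exact (analyticAt_const.mul hK'a).add ((analyticAt_id.sub analyticAt_const).mul hK'a.deriv)
      · have h1 := hFeq.eventuallyEq_nhds
        filter_upwards [h1, isOpen_ball.mem_nhds ht1, hK'a.eventually_analyticAt] with z hz hzb hKz
        have h2 := (hderivF (fun i => c i.succ) (c 0) z hzb).deriv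
        rw [← h2, hz.deriv_eq]
        have h3 : HasDerivAt (fun z => (z - t1) ^ (n + 1)) (((n + 1 : ℕ) : ℂ) * (z - t1) ^ n * 1) z := by
          have := ((hasDerivAt_id z).sub_const t1).fun_pow (n + 1)
          simpa using this
        have h4 := h3.fun_mul hKz.differentiableAt.hasDerivAt
        rw [h4.deriv, smul_eq_mul]
        push_cast
        ring
    have hc0 : c 0 = 0 := by
      have h1 := hFeq.self_of_nhds
      have h2 : ∀ i : Fin n, c i.succ = 0 := fun i => congrFun hc1 i
      simp only [h2, zero_mul, Finset.sum_const_zero, add_zero, sub_self, pow_succ, mul_zero] at h1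
      exact h1
    funext i
    refine Fin.cases ?_ (fun j => ?_) i
    · exact hc0
    · exact congrFun hc1 j

end R6309

export R6309 (order_generic)

end PFrame
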