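import Pool.Agent.Helper237.PR.Defs
import Pool.Agent.Helper237.PR.Arc
import Pool.Agent.Helper237.PR.Order

set_option autoImplicit false

open Metric Set Filter Topology

namespace PFrame

namespace R6310

/-- arcs with linearly independent derivatives -/
theorem nondeg_arc {W : Type} [NormedAddCommGroup W] [NormedSpace ℂ W] [FiniteDimensional ℂ W]
    [Nontrivial W] {U Z : Set W} {b : W} (hU : IsOpen U) (hb : b ∈ U)
    (hZ : Z ⊆ U) (hZh : hull U Z ⊆ Z) (hacc : AccPt b (𝓟 Z))
    (hH : ∀ c ∈ U, ∀ ℓ : W →L[ℂ] ℂ, ℓ ≠ 0 → ¬ AccPt c (𝓟 (Z ∩ {z | ℓ z = ℓ c})))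
    {V : Set W} (hV : V ∈ 𝓝 b) :
    ∃ (γ : ℂ → W) (t₁ : ℂ), AnalyticAt ℂ γ t₁ ∧ γ t₁ ∈ V ∧ (∀ᶠ t in 𝓝 t₁, γ t ∈ Z) ∧
      ∀ (α : ℂ) (ℓ : W →L[ℂ] ℂ),
        ((Module.finrank ℂ W + 1 : ℕ) : ℕ∞) ≤ analyticOrderAt (fun t => α + ℓ (γ t)) t₁ →
        α = 0 ∧ ℓ = 0 := by
  obtain ⟨γ, t₀, ℓ, hγ, hγV, hev⟩ :=
    exists_arc hU hb hZ hZh hacc hH (V := interior V) (interior_mem_nhds.mpr hV)
  set B := Module.finBasis ℂ W with hB
  let e : Fin (Module.finrank ℂ W) → (W →L[ℂ] ℂ) := fun i => LinearMap.toContinuousLinearMap (B.coord i)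
  have he : ∀ i z, e i z = B.repr z i := fun i z => rfl
  have hV' : ∀ᶠ t in 𝓝 t₀, γ t ∈ interior V :=
    hγ.continuousAt.eventually (isOpen_interior.mem_nhds hγV)
  have hall := (hγ.eventually_analyticAt.and hV').and hev
  obtain ⟨ε, hε, hball⟩ := Metric.eventually_nhds_iff_ball.mp hall
  let g : Fin (Module.finrank ℂ W + 1) → ℂ → ℂ :=
    Fin.cons (fun _ => 1) (fun i t => e i (γ t))
  have hsum : ∀ (c : Fin (Module.finrank ℂ W + 1) → ℂ) (t : ℂ),
      ∑ i, c i * g i t = c 0 + ∑ i : Fin (Module.finrank ℂ W), c i.succ * e i (γ t) := by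
    intro c t
    rw [Fin.sum_univ_succ]
    simp [g]
  have ht₀ : t₀ ∈ ball t₀ ε := mem_ball_self hε
  obtain ⟨t₁, ht₁, hgen⟩ := order_generic (Module.finrank ℂ W + 1) (ball t₀ ε) isOpen_ball
    (convex_ball t₀ ε).isPreconnected ⟨t₀, ht₀⟩ g (by
      intro i t ht
      refine Fin.cases ?_ (fun j => ?_) i
      · exact analyticAt_const
      · have h1 : AnalyticAt ℂ γ t := (hball t ht).1.1
        exact (e j).analyticAt (γ t) |>.comp h1) (by
      intro c hc
      let ℓ' : W →L[ℂ] ℂ := ∑ i, c i.succ • e i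
      have hℓ' : ∀ z, ℓ' z = ∑ i, c i.succ * e i z := by
        intro z
        simp [ℓ']
      have hconst : ∀ t ∈ ball t₀ ε, ℓ' (γ t) = - c 0 := by
        intro t ht
        have := hc t ht
        rw [hsum] at this
        rw [hℓ']
        linear_combination this
      have hzero : ℓ' = 0 := by
        by_contra hne
        have hmem : γ t₀ ∈ Z := (hball t₀ ht₀).2.1
        apply hH (γ t₀) (hZ hmem) ℓ' hne
        rw [accPt_iff_frequently]
        have htend : Tendsto γ (𝓝[≠] t₀) (𝓝 (γ t₀)) := hγ.continuousAt.tendsto.mono_left nhdsWithin_le_nhds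
        apply htend.frequently
        apply Filter.Eventually.frequently
        have h1 : ∀ᶠ t in 𝓝[≠] t₀, t ∈ ball t₀ ε :=
          nhdsWithin_le_nhds (isOpen_ball.mem_nhds ht₀)
        filter_upwards [h1, self_mem_nhdsWithin] with t ht hne'
        refine ⟨?_, (hball t ht).2.1, ?_⟩
        · intro heq
          apply hne'
          have h2 := (hball t ht).2.2
          have h3 := (hball t₀ ht₀).2.2
          rw [heq, h3] at h2
          exact h2.symm
        · change ℓ' (γ t) = ℓ' (γ t₀)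
          rw [hconst t ht, hconst t₀ ht₀]
      have hs : ∀ j : Fin (Module.finrank ℂ W), c j.succ = 0 := by
        intro j
        have h1 : ℓ' (B j) = 0 := by rw [hzero]; rfl
        rw [hℓ'] at h1
        simpa [he, Finsupp.single_apply] using h1
      have h0 : c 0 = 0 := by
        have := hconst t₀ ht₀
        rw [hzero] at this
        have h2 : (0 : ℂ) = - c 0 := this
        linear_combination h2
      funext i
      refine Fin.cases h0 hs i)
  refine ⟨γ, t₁, (hball t₁ ht₁).1.1, interior_subset (hball t₁ ht₁).1.2, ?_, ?_⟩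
  · filter_upwards [isOpen_ball.mem_nhds ht₁] with t ht
    exact (hball t ht).2.1
  · intro α m hm
    let c : Fin (Module.finrank ℂ W + 1) → ℂ := Fin.cons α (fun i => m (B i))
    have hfun : (fun t => ∑ i, c i * g i t) = fun t => α + m (γ t) := by
      funext t
      rw [hsum]
      have h1 : m (γ t) = ∑ i, B.repr (γ t) i * m (B i) := by
        have h2 := congrArg m (B.sum_repr (γ t))
        rw [map_sum] at h2
        rw [← h2]
        refine Finset.sum_congr rfl fun i _ => ?_
        rw [map_smul, smul_eq_mul]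
      rw [h1]
      simp only [c, Fin.cons_zero, Fin.cons_succ]
      congr 1
      refine Finset.sum_congr rfl fun i _ => ?_
      rw [he, mul_comm]
    have hc0 := hgen c (by rw [hfun]; exact hm)
    have hα : α = 0 := by
      have := congrFun hc0 0
      simpa [c] using this
    refine ⟨hα, ?_⟩
    have hb' : ∀ i, m (B i) = 0 := by
      intro i
      have := congrFun hc0 i.succ
      simpa [c] using this
    have hlin : (m : W →ₗ[ℂ] ℂ) = 0 := B.ext (by intro i; simpa using hb' i)
    ext z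
    exact LinearMap.congr_fun hlin z

end R6310

export R6310 (nondeg_arc)

end PFrame
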