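import Pool.Agent.Helper237.PR.Defs
import Pool.Agent.Helper237.PF.HullHH
import Pool.Agent.Helper237.PF.Quad

set_option autoImplicit false

open Metric Set Filter Topology

namespace PFrame

namespace R6318

section kernel

variable {W : Type} [NormedAddCommGroup W] [InnerProductSpace ℂ W]

variable {E : Type} [NormedAddCommGroup E] [InnerProductSpace ℂ E]

end kernel

section generalW

variable {W : Type} [NormedAddCommGroup W] [InnerProductSpace ℂ W]
  {E : Type} [NormedAddCommGroup E] [InnerProductSpace ℂ E]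
  {p : ℝ} {a b : ℕ} {v : W → E} {J : E →L[ℂ] E}

theorem subset_hull' {V : Type*} [NormedAddCommGroup V] [NormedSpace ℂ V] {U S : Set V}
    (h : S ⊆ U) : S ⊆ hull U S := fun s hs => ⟨h hs, fun _ _ hf => hf s hs⟩

theorem hull_subset_HH' [CompleteSpace E] (hΦ : IsFeat p v J) {S : Set W}
    (hS : S ⊆ ball 0 1) : hull (ball 0 1) S ⊆ HH v S := by
  apply hull_subset_HH hΦ (subset_refl _)
  intro s hs
  exact ⟨hS hs, (Submodule.le_topologicalClosure _) (Submodule.subset_span ⟨s, hs, rfl⟩)⟩

theorem span_hull_le [CompleteSpace E] (hΦ : IsFeat p v J) {S : Set W}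
    (hS : S ⊆ ball 0 1) :
    (Submodule.span ℂ (v '' hull (ball 0 1) S) : Set E) ⊆
      closure (Submodule.span ℂ (v '' S) : Set E) := by
  have h : Submodule.span ℂ (v '' hull (ball 0 1) S) ≤ MM v S := by
    rw [Submodule.span_le]
    rintro _ ⟨z, hz, rfl⟩
    exact (hull_subset_HH' hΦ hS hz).2
  intro x hx
  have := h hx
  rw [MM] at this
  exact this

theorem contDiffOn_hom {U : Set W} : ContDiffOn ℂ 1 (fun z : W => hom z) U := by
  have h1 : ContDiff ℂ 1 (fun z : W => ((1 : ℂ), z)) := contDiff_const.prodMk contDiff_id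
  have h2 : (fun z : W => hom z) = fun z : W =>
      (WithLp.prodContinuousLinearEquiv 2 ℂ ℂ W).symm ((1 : ℂ), z) := by
    funext z; rfl
  rw [h2]
  exact ((WithLp.prodContinuousLinearEquiv 2 ℂ ℂ W).symm.contDiff.comp h1).contDiffOn

theorem pair_hull [CompleteSpace E] (hΦ : IsFeat p v J)
    {A : WithLp 2 (ℂ × W) →L[ℂ] WithLp 2 (ℂ × W)} {S Y : Set W} {T : E →L[ℂ] E}
    (hG : GoodP p a b v J A S Y T) :
    GoodP p a b v J A (hull (ball 0 1) S) (hull (ball 0 1) Y) T := by
  refine ⟨fun z hz => hz.1, fun z hz => hz.1, ?_, ?_, ?_, ?_, hG.iso, ?_, ?_, hG.nrm⟩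
  · exact hG.accS.mono (Filter.principal_mono.2 (subset_hull' hG.subS))
  · exact hG.accY.mono (Filter.principal_mono.2 (subset_hull' hG.subY))
  · intro s c hs
    exact PD_HH hΦ hG.subS hG.pdS s c (hs.trans (hull_subset_HH' hΦ hG.subS))
  · intro s c hs
    exact PD_HH hΦ hG.subY hG.pdY s c (hs.trans (hull_subset_HH' hΦ hG.subY))
  · intro x hx y hy
    have hx' := span_hull_le hΦ hG.subS hx
    have hy' := span_hull_le hΦ hG.subY hy
    have hcl : IsClosed {q : E × E |
        ‖inner ℂ q.2 (T q.1)‖ ^ 2 ≤ (inner ℂ q.1 (J q.1)).re * (inner ℂ q.2 (J q.2)).re} := by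
      apply isClosed_le
      · fun_prop
      · apply Continuous.mul
        · exact Complex.continuous_re.comp (by fun_prop)
        · exact Complex.continuous_re.comp (by fun_prop)
    have hsub : (Submodule.span ℂ (v '' S) : Set E) ×ˢ (Submodule.span ℂ (v '' Y) : Set E) ⊆
        {q : E × E |
        ‖inner ℂ q.2 (T q.1)‖ ^ 2 ≤ (inner ℂ q.1 (J q.1)).re * (inner ℂ q.2 (J q.2)).re} := by
      rintro ⟨x', y'⟩ ⟨h1, h2⟩
      exact hG.bound x' h1 y' h2
    have hmem : (x, y) ∈ closure ((Submodule.span ℂ (v '' S) : Set E) ×ˢ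
        (Submodule.span ℂ (v '' Y) : Set E)) := by
      rw [closure_prod_eq]
      exact ⟨hx', hy'⟩
    exact (closure_minimal hsub hcl) hmem
  · have key : ∀ s ∈ hull (ball 0 1) S, ∀ η ∈ Y,
        (inner ℂ (v η) (T (v s))) ^ b = (inner ℂ (hom η) (A (hom s))) ^ a := by
      intro s hs η hη
      have h := hs.2 (fun z => (inner ℂ (v η) (T (v z))) ^ b -
        (inner ℂ (hom η) (A (hom z))) ^ a) ?_ ?_
      · exact sub_eq_zero.1 h
      · apply ContDiffOn.sub
        · apply ContDiffOn.pow
          have : (fun z => inner ℂ (v η) (T (v z))) =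
              fun z => ((innerSL ℂ (v η)).comp T) (v z) := by
            funext z; rfl
          rw [this]
          exact ((innerSL ℂ (v η)).comp T).contDiff.comp_contDiffOn hΦ.smooth
        · apply ContDiffOn.pow
          have : (fun z : W => inner ℂ (hom η) (A (hom z))) =
              fun z => ((innerSL ℂ (hom η)).comp A) (hom z) := by
            funext z; rfl
          rw [this]
          exact ((innerSL ℂ (hom η)).comp A).contDiff.comp_contDiffOn contDiffOn_hom
      · intro s' hs'
        exact sub_eq_zero.2 (hG.rel s' hs' η hη)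
    intro s hs η hη
    have h := hη.2 (fun z => (inner ℂ (T (v s)) (v z)) ^ b -
        (inner ℂ (A (hom s)) (hom z)) ^ a) ?_ ?_
    · have h' := sub_eq_zero.1 h
      have h'' := congrArg (starRingEnd ℂ) h'
      rw [map_pow, map_pow, inner_conj_symm, inner_conj_symm] at h''
      exact h''
    · apply ContDiffOn.sub
      · apply ContDiffOn.pow
        have : (fun z => inner ℂ (T (v s)) (v z)) =
            fun z => (innerSL ℂ (T (v s))) (v z) := by
          funext z; rfl
        rw [this]
        exact (innerSL ℂ (T (v s))).contDiff.comp_contDiffOn hΦ.smooth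
      · apply ContDiffOn.pow
        have : (fun z : W => inner ℂ (A (hom s)) (hom z)) =
            fun z => (innerSL ℂ (A (hom s))) (hom z) := by
          funext z; rfl
        rw [this]
        exact (innerSL ℂ (A (hom s))).contDiff.comp_contDiffOn contDiffOn_hom
    · intro η' hη'
      have h := key s hs η' hη'
      have h'' := congrArg (starRingEnd ℂ) h
      rw [map_pow, map_pow, inner_conj_symm, inner_conj_symm] at h''
      exact sub_eq_zero.2 h''

end generalW

end R6318

export R6318 (pair_hull)

end PFrame
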