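import Pool.Agent.Helper237.PR.Defs
import Pool.Agent.Helper237.PF.Elim2

set_option autoImplicit false

open Metric Set Filter Topology

namespace PFrame

namespace R6311

/-- abbreviation -/
abbrev SnX (W : Type) [NormedAddCommGroup W] [NormedSpace ℂ W] : Type := (W →L[ℂ] ℂ) × ℂ

theorem sn_hull {W : Type} [NormedAddCommGroup W] [NormedSpace ℂ W] (U Z : Set W)
    (hZh : hull U Z ⊆ Z) (z : W × ((W →L[ℂ] ℂ) × ℂ))
    (hz : z ∈ hull {z : W × ((W →L[ℂ] ℂ) × ℂ) | z.1 ∈ U}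
      {z : W × ((W →L[ℂ] ℂ) × ℂ) | z.1 ∈ Z ∧ z.2.2 = z.2.1 z.1}) :
    z.1 ∈ Z ∧ z.2.2 = z.2.1 z.1 := by
  constructor
  · refine hZh ⟨hz.1, fun g hg hg0 => ?_⟩
    refine hz.2 (fun z => g z.1) ?_ (fun s hs => hg0 _ hs.1)
    exact hg.comp contDiff_fst.contDiffOn (fun z hz => hz)
  · have h := hz.2 (fun z => z.2.2 - z.2.1 z.1) ?_ (fun s hs => by rw [hs.2, sub_self])
    · exact sub_eq_zero.1 h
    · apply ContDiff.contDiffOn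
      fun_prop

/-- affine equations close to one that holds at `b` can be solved in `Z` near `b` -/
theorem solve_near {W : Type} [NormedAddCommGroup W] [NormedSpace ℂ W] [FiniteDimensional ℂ W]
    {U Z : Set W} {b : W} (hU : IsOpen U) (hb : b ∈ U) (hZ : Z ⊆ U) (hZh : hull U Z ⊆ Z)
    (hacc : AccPt b (𝓟 Z))
    (hH : ∀ ℓ : W →L[ℂ] ℂ, ℓ ≠ 0 → ¬ AccPt b (𝓟 (Z ∩ {z | ℓ z = ℓ b})))
    (ℓ₀ : W →L[ℂ] ℂ) (hℓ₀ : ℓ₀ ≠ 0) {V : Set W} (hV : V ∈ 𝓝 b) :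
    ∀ᶠ q : (W →L[ℂ] ℂ) × ℂ in 𝓝 (ℓ₀, ℓ₀ b), ∃ z ∈ Z ∩ V, q.1 z = q.2 := by
  set Uh : Set (W × (SnX W)) := {z | z.1 ∈ U} with hUh
  set Sh : Set (W × (SnX W)) := {z | z.1 ∈ Z ∧ z.2.2 = z.2.1 z.1} with hSh
  set bh : W × (SnX W) := (b, (ℓ₀, ℓ₀ b)) with hbh
  have hUo : IsOpen Uh := hU.preimage continuous_fst
  have hSU : Sh ⊆ Uh := fun z hz => hZ hz.1
  have haccS : AccPt bh (𝓟 Sh) := by
    rw [accPt_iff_frequently] at hacc ⊢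
    have hc : Tendsto (fun w : W => ((w, (ℓ₀, ℓ₀ w)) : W × (SnX W))) (𝓝 b) (𝓝 bh) := by
      have : Continuous (fun w : W => ((w, (ℓ₀, ℓ₀ w)) : W × (SnX W))) := by fun_prop
      exact this.tendsto b
    refine hc.frequently (hacc.mono ?_)
    rintro w ⟨h1, h2⟩
    exact ⟨fun h => h1 (congrArg Prod.fst h), h2, rfl⟩
  have hisol : ∀ ℓ : W →L[ℂ] ℂ, ℓ ≠ 0 → ∀ᶠ w in 𝓝 b, w ∈ Z → ℓ w = ℓ b → w = b := by
    intro ℓ hℓ
    have h := hH ℓ hℓ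
    rw [accPt_iff_frequently, not_frequently] at h
    filter_upwards [h] with w hw h1 h2
    by_contra h3
    exact hw ⟨h3, h1, h2⟩
  have hiso : ∀ᶠ z in 𝓝 bh, z ∈ hull Uh Sh → (ContinuousLinearMap.snd ℂ W (SnX W)) z =
      (ContinuousLinearMap.snd ℂ W (SnX W)) bh → z = bh := by
    have h1 : ∀ᶠ z in 𝓝 bh, z.1 ∈ Z → ℓ₀ z.1 = ℓ₀ b → z.1 = b :=
      (continuous_fst.tendsto bh).eventually (hisol ℓ₀ hℓ₀)
    filter_upwards [h1] with z hz hzh hπ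
    obtain ⟨h2, h3⟩ := sn_hull U Z hZh z hzh
    have h4 : z.2 = (ℓ₀, ℓ₀ b) := hπ
    rw [h4] at h3
    exact Prod.ext (hz h2 h3.symm) h4
  have hVh : {z : W × (SnX W) | z.1 ∈ V} ∈ 𝓝 bh := (continuous_fst.tendsto bh) hV
  obtain ⟨U', V', hV', hU'o, hbU', hV'V, hπV', hmain⟩ := elim_many' _
    (ContinuousLinearMap.snd ℂ W (SnX W)) Prod.snd_surjective rfl Uh Sh bh hUo hb hSU haccS hiso _ hVh
  -- uniform ball
  obtain ⟨ε, hε, hεU⟩ := Metric.isOpen_iff.1 hU'o _ hbU'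
  have e0 : ∀ᶠ q : (SnX W) in 𝓝 (ℓ₀, ℓ₀ b), q ∈ ball ((ℓ₀, ℓ₀ b) : (SnX W)) ε := ball_mem_nhds _ hε
  have e1 : ∀ᶠ q : (SnX W) in 𝓝 (ℓ₀, ℓ₀ b), q.1 b ∈ ball (ℓ₀ b) ε := by
    have hc : Continuous (fun q : (SnX W) => q.1 b) := by fun_prop
    exact (hc.tendsto (ℓ₀, ℓ₀ b)).eventually (ball_mem_nhds _ hε)
  have e2 : ∀ᶠ q : (SnX W) in 𝓝 (ℓ₀, ℓ₀ b), q.1 ≠ 0 := by
    exact (isOpen_ne_fun continuous_fst continuous_const).mem_nhds hℓ₀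
  have e3 : ∀ᶠ q : (SnX W) in 𝓝 (ℓ₀, ℓ₀ b), ((b, (q.1, q.1 b)) : W × (SnX W)) ∈ interior V' := by
    have hc : Continuous (fun q : (SnX W) => ((b, (q.1, q.1 b)) : W × (SnX W))) := by fun_prop
    exact (hc.tendsto (ℓ₀, ℓ₀ b)).eventually (isOpen_interior.mem_nhds (mem_interior_iff_mem_nhds.2 hV'))
  filter_upwards [e0, e1, e2, e3] with q h0 h1 h2 h3
  obtain ⟨ℓ, t⟩ := q
  replace h1 : ℓ b ∈ ball (ℓ₀ b) ε := h1
  replace h2 : ℓ ≠ 0 := h2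
  replace h3 : ((b, (ℓ, ℓ b)) : W × (SnX W)) ∈ interior V' := h3
  have hin : ∀ t' ∈ ball (ℓ₀ b) ε, ((ℓ, t') : (SnX W)) ∈ U' := by
    intro t' ht'
    apply hεU
    rw [← ball_prod_same]
    rw [← ball_prod_same] at h0
    exact ⟨h0.1, ht'⟩
  have ht : t ∈ ball (ℓ₀ b) ε := by
    rw [← ball_prod_same] at h0
    exact h0.2
  have hqh : ((ℓ, t) : (SnX W)) ∈ hull U' ((ContinuousLinearMap.snd ℂ W (SnX W)) '' (Sh ∩ V')) := by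
    refine ⟨hin t ht, fun g hg hg0 => ?_⟩
    have hd : DifferentiableOn ℂ (fun t' : ℂ => g (ℓ, t')) (ball (ℓ₀ b) ε) := by
      refine (hg.differentiableOn (by norm_num)).comp ?_ hin
      fun_prop
    have han := hd.analyticOnNhd isOpen_ball
    have hfr : ∃ᶠ t' in 𝓝[≠] (ℓ b), (fun t' : ℂ => g (ℓ, t')) t' = 0 := by
      rw [frequently_nhdsWithin_iff]
      refine (ℓ.continuous.tendsto b).frequently ?_
      rw [accPt_iff_frequently] at hacc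
      have hcw : ∀ᶠ w in 𝓝 b, ((w, (ℓ, ℓ w)) : W × (SnX W)) ∈ V' := by
        have hc : Continuous (fun w : W => ((w, (ℓ, ℓ w)) : W × (SnX W))) := by fun_prop
        exact (hc.tendsto b).eventually (mem_interior_iff_mem_nhds.1 h3)
      refine (hacc.and_eventually (hcw.and (hisol ℓ h2))).mono ?_
      rintro w ⟨⟨hw1, hw2⟩, hw3, hw4⟩
      refine ⟨?_, fun h => hw1 (hw4 hw2 h)⟩
      exact hg0 _ ⟨(w, (ℓ, ℓ w)), ⟨⟨hw2, rfl⟩, hw3⟩, rfl⟩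
    have hz := han.eqOn_zero_of_preconnected_of_frequently_eq_zero
      (convex_ball _ _).isPreconnected h1 hfr
    exact hz ht
  obtain ⟨z, ⟨hz1, hz2⟩, hz3⟩ := hmain _ hqh
  obtain ⟨h5, h6⟩ := sn_hull U Z hZh z hz1
  have h7 : z.2 = (ℓ, t) := hz3
  refine ⟨z.1, ⟨h5, hz2⟩, ?_⟩
  rw [h7] at h6
  exact h6.symm

end R6311

export R6311 (solve_near)

end PFrame
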