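import Pool.Agent.Helper237.PR.Defs
import Pool.Agent.Helper237.PF.Hyper
import Pool.Agent.Helper237.PR.Nondeg
import Pool.Agent.Helper237.PR.Phull
import Pool.Agent.Helper237.PR.Solve

set_option autoImplicit false

open Metric Set Filter Topology

namespace PFrame

namespace R6322

section kernel

variable {W : Type} [NormedAddCommGroup W] [InnerProductSpace ℂ W]

variable {E : Type} [NormedAddCommGroup E] [InnerProductSpace ℂ E]

end kernel

section generalW

variable {W : Type} [NormedAddCommGroup W] [InnerProductSpace ℂ W]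
  {E : Type} [NormedAddCommGroup E] [InnerProductSpace ℂ E]
  {p : ℝ} {a b : ℕ} {v : W → E} {J : E →L[ℂ] E}

end generalW

section finalaux

theorem aux_hull_idem {W : Type*} [NormedAddCommGroup W] [NormedSpace ℂ W] (U S : Set W) :
    hull U (hull U S) ⊆ hull U S := by
  rintro z ⟨hzU, hz⟩
  exact ⟨hzU, fun f hf hfs => hz f hf (fun s hs => hs.2 f hf hfs)⟩

variable {W : Type} [NormedAddCommGroup W] [InnerProductSpace ℂ W]

theorem aux_inner_hom (q : WithLp 2 (ℂ × W)) (w : W) :
    (inner ℂ q (hom w) : ℂ) = (starRingEnd ℂ) q.fst + inner ℂ q.snd w := by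
  simp [hom, WithLp.prod_inner_apply]

theorem aux_hom_cont : Continuous (hom : W → WithLp 2 (ℂ × W)) := by
  unfold hom
  exact (WithLp.prod_continuous_toLp 2 ℂ W).comp (continuous_const.prodMk continuous_id)

theorem aux_hom_add (u : W) : hom u = hom 0 + (WithLp.toLp 2 ((0 : ℂ), u)) := by
  unfold hom
  rw [← WithLp.toLp_add]
  simp

theorem aux_decomp (x : WithLp 2 (ℂ × W)) :
    x = x.fst • hom 0 + (WithLp.toLp 2 ((0 : ℂ), x.snd)) := by
  unfold hom
  rw [← WithLp.toLp_smul, ← WithLp.toLp_add]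
  simp only [smul_zero, Prod.smul_mk, smul_eq_mul, mul_one, Prod.mk_add_mk, add_zero, zero_add]
  rfl

theorem aux_hom_ne (w : W) : hom w ≠ 0 := by
  intro h
  have := congrArg WithLp.fst h
  simp [hom] at this

/-- the linear part -/
noncomputable def linPart [FiniteDimensional ℂ W] (A : WithLp 2 (ℂ × W) →L[ℂ] WithLp 2 (ℂ × W)) (w : W) :
    W →L[ℂ] ℂ :=
  LinearMap.toContinuousLinearMap
    { toFun := fun u => inner ℂ (hom w) (A (WithLp.toLp 2 ((0 : ℂ), u)))
      map_add' := by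
        intro x y
        rw [← inner_add_right, ← map_add, ← WithLp.toLp_add]
        simp
      map_smul' := by
        intro c x
        have : (WithLp.toLp 2 ((0 : ℂ), c • x) : WithLp 2 (ℂ × W)) = c • WithLp.toLp 2 ((0 : ℂ), x) := by
          rw [← WithLp.toLp_smul]; simp
        rw [this, map_smul, inner_smul_right]
        simp }

theorem linPart_apply [FiniteDimensional ℂ W] (A : WithLp 2 (ℂ × W) →L[ℂ] WithLp 2 (ℂ × W)) (w u : W) :
    linPart A w u = inner ℂ (hom w) (A (WithLp.toLp 2 ((0 : ℂ), u))) := rfl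

theorem aux_inner_eq [FiniteDimensional ℂ W] (A : WithLp 2 (ℂ × W) →L[ℂ] WithLp 2 (ℂ × W)) (w u : W) :
    (inner ℂ (hom w) (A (hom u)) : ℂ) = inner ℂ (hom w) (A (hom 0)) + linPart A w u := by
  rw [linPart_apply, aux_hom_add u, map_add, inner_add_right]

theorem aux_not_zero [FiniteDimensional ℂ W] (A : WithLp 2 (ℂ × W) →L[ℂ] WithLp 2 (ℂ × W))
    (hA : ∀ x, ‖A x‖ = ‖x‖) (w : W)
    (h : (inner ℂ (hom w) (A (hom 0)) : ℂ) = 0 ∧ linPart A w = 0) : False := by
  obtain ⟨h1, h2⟩ := h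
  have hinj : Function.Injective A := by
    rw [injective_iff_map_eq_zero]
    intro x hx
    rw [← norm_eq_zero, ← hA x, hx, norm_zero]
  haveI : FiniteDimensional ℂ (WithLp 2 (ℂ × W)) := inferInstance
  have hsurj : Function.Surjective A := LinearMap.surjective_of_injective (f := A.toLinearMap) hinj
  obtain ⟨x, hx⟩ := hsurj (hom w)
  have h3 : (inner ℂ (hom w) (A x) : ℂ) = 0 := by
    rw [aux_decomp x, map_add, inner_add_right, map_smul, inner_smul_right, h1, mul_zero, zero_add,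
      ← linPart_apply, h2]
    simp
  rw [hx] at h3
  exact aux_hom_ne w (inner_self_eq_zero.1 h3)

end finalaux

section main

variable {p : ℝ} {d : ℕ} {E : Type} [NormedAddCommGroup E] [InnerProductSpace ℂ E]
  [CompleteSpace E] {v : EuclideanSpace ℂ (Fin (d + 1)) → E} {J : E →L[ℂ] E} {a b : ℕ}

theorem pair_final (hno : NoPD p d) (hΦ : IsFeat p v J) (hab : Nat.Coprime a b)
    (hb : d + 1 < b)
    {A : WithLp 2 (ℂ × EuclideanSpace ℂ (Fin (d + 1))) →L[ℂ]
      WithLp 2 (ℂ × EuclideanSpace ℂ (Fin (d + 1)))}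
    {S Y : Set (EuclideanSpace ℂ (Fin (d + 1)))} {T : E →L[ℂ] E}
    (hG : GoodP p a b v J A S Y T) (h0 : (inner ℂ (hom 0) (A (hom 0)) : ℂ) = 0) : False := by
  classical
  haveI : Nontrivial (EuclideanSpace ℂ (Fin (d + 1))) := by
    refine ⟨0, EuclideanSpace.single 0 1, ?_⟩
    intro h
    have := congrArg (fun x : EuclideanSpace ℂ (Fin (d + 1)) => x 0) h
    simp at this
  have hfr : Module.finrank ℂ (EuclideanSpace ℂ (Fin (d + 1))) = d + 1 := by simp
  have hG' := pair_hull hΦ hG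
  set Z := hull (ball (0 : (EuclideanSpace ℂ (Fin (d + 1)))) 1) S with hZ
  set K := hull (ball (0 : (EuclideanSpace ℂ (Fin (d + 1)))) 1) Y with hK
  have h0U : (0 : (EuclideanSpace ℂ (Fin (d + 1)))) ∈ ball (0 : (EuclideanSpace ℂ (Fin (d + 1)))) 1 := mem_ball_self one_pos
  set q : (EuclideanSpace ℂ (Fin (d + 1))) → WithLp 2 (ℂ × (EuclideanSpace ℂ (Fin (d + 1)))) := fun s => A (hom s) with hq
  have hqc : Continuous q := A.continuous.comp aux_hom_cont
  -- the orthogonality at 0
  have hq1 : (q 0).fst = 0 := by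
    have h1 : (inner ℂ (hom 0) (q 0) : ℂ) = (q 0).fst := by
      rw [← inner_conj_symm, aux_inner_hom]
      simp
    rw [← h1]; exact h0
  have hq2 : (q 0).snd ≠ 0 := by
    intro h
    have h1 : q 0 = 0 := by
      rw [aux_decomp (q 0), hq1, h]
      simp only [zero_smul, zero_add]
      rfl
    have h2 : ‖(hom (0 : (EuclideanSpace ℂ (Fin (d + 1)))))‖ = 0 := by
      rw [← hG'.iso, ← norm_zero (E := WithLp 2 (ℂ × (EuclideanSpace ℂ (Fin (d + 1))))), ← h1]
    exact aux_hom_ne (0 : (EuclideanSpace ℂ (Fin (d + 1)))) (norm_eq_zero.1 h2)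
  have hℓ₀ : innerSL ℂ (q 0).snd ≠ 0 := by
    intro h
    apply hq2
    have := congrArg (fun f : (EuclideanSpace ℂ (Fin (d + 1))) →L[ℂ] ℂ => f (q 0).snd) h
    simp only [innerSL_apply_apply, _root_.zero_apply] at this
    exact inner_self_eq_zero.1 this
  -- solve near
  have hsol := solve_near (b := (0 : (EuclideanSpace ℂ (Fin (d + 1))))) isOpen_ball h0U hG'.subY (aux_hull_idem _ _) hG'.accY
    (fun ℓ hℓ => hyper hno hG'.subY hG'.pdY h0U ℓ hℓ) (innerSL ℂ (q 0).snd) hℓ₀ (V := univ) univ_mem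
  rw [map_zero] at hsol
  have hF : Tendsto (fun s : (EuclideanSpace ℂ (Fin (d + 1))) => ((innerSL ℂ (q s).snd : (EuclideanSpace ℂ (Fin (d + 1))) →L[ℂ] ℂ), -(starRingEnd ℂ) (q s).fst)) (𝓝 0)
      (𝓝 (innerSL ℂ (q 0).snd, 0)) := by
    have c1 : Continuous fun s : (EuclideanSpace ℂ (Fin (d + 1))) => (innerSL ℂ (q s).snd : (EuclideanSpace ℂ (Fin (d + 1))) →L[ℂ] ℂ) :=
      (innerSL ℂ).continuous.comp ((WithLp.continuous_snd 2 ℂ (EuclideanSpace ℂ (Fin (d + 1)))).comp hqc)
    have c2 : Continuous fun s : (EuclideanSpace ℂ (Fin (d + 1))) => -(starRingEnd ℂ) (q s).fst :=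
      (Complex.continuous_conj.comp ((WithLp.continuous_fst 2 ℂ (EuclideanSpace ℂ (Fin (d + 1)))).comp hqc)).neg
    have c3 := (c1.prodMk c2).tendsto 0
    simpa [hq1] using c3
  have hV0 := hF.eventually hsol
  obtain ⟨γ, t₁, hγ, hγV, hγZ, hnd⟩ := nondeg_arc (b := (0 : (EuclideanSpace ℂ (Fin (d + 1))))) isOpen_ball h0U hG'.subS
    (aux_hull_idem _ _) hG'.accS (fun c hc ℓ hℓ => hyper hno hG'.subS hG'.pdS hc ℓ hℓ) hV0
  obtain ⟨w, ⟨hwK, _⟩, hw⟩ := hγV
  simp only [innerSL_apply_apply] at hw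
  -- the function g
  set g : ℂ → ℂ := fun t => inner ℂ (hom w) (A (hom (γ t))) with hg
  have hg1 : g t₁ = 0 := by
    have h1 : (inner ℂ (q (γ t₁)) (hom w) : ℂ) = 0 := by
      rw [aux_inner_hom, hw]; ring
    show (inner ℂ (hom w) (q (γ t₁)) : ℂ) = 0
    rw [← inner_conj_symm, h1, map_zero]
  have hg2 : g = fun t => (inner ℂ (hom w) (A (hom 0)) : ℂ) + linPart A w (γ t) := by
    funext t
    exact aux_inner_eq A w (γ t)
  have hga : AnalyticAt ℂ g t₁ := by
    rw [hg2]
    exact analyticAt_const.add (((linPart A w).analyticAt _).comp hγ)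
  have hglt : analyticOrderAt g t₁ < ((d + 1 + 1 : ℕ) : ℕ∞) := by
    by_contra hcon
    push Not at hcon
    rw [hg2] at hcon
    have h1 := hnd (inner ℂ (hom w) (A (hom 0))) (linPart A w) (by rw [hfr]; exact hcon)
    exact aux_not_zero A hG'.iso w h1
  have hgne : analyticOrderAt g t₁ ≠ 0 := by
    rw [hga.analyticOrderAt_ne_zero]; exact hg1
  obtain ⟨m, hm⟩ : ∃ m : ℕ, analyticOrderAt g t₁ = m := by
    have := ENat.ne_top_iff_exists.1 (ne_top_of_lt hglt)
    obtain ⟨m, hm⟩ := this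
    exact ⟨m, hm.symm⟩
  have hm1 : 1 ≤ m := by
    rw [hm] at hgne
    have : m ≠ 0 := by exact_mod_cast hgne
    omega
  have hm2 : m < d + 1 + 1 := by
    rw [hm] at hglt
    exact_mod_cast hglt
  -- the function h
  set h : ℂ → ℂ := fun t => inner ℂ (v w) (T (v (γ t))) with hh
  have hha : AnalyticAt ℂ h t₁ := by
    rw [Complex.analyticAt_iff_eventually_differentiableAt]
    filter_upwards [hγZ, hγ.eventually_analyticAt] with t ht hγt
    have hγU : γ t ∈ ball (0 : (EuclideanSpace ℂ (Fin (d + 1)))) 1 := hG'.subS ht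
    have hv : DifferentiableAt ℂ v (γ t) :=
      (hΦ.smooth.differentiableOn (by simp)).differentiableAt (isOpen_ball.mem_nhds hγU)
    have h1 : DifferentiableAt ℂ (fun t => v (γ t)) t := hv.comp t hγt.differentiableAt
    exact (((innerSL ℂ (v w)).comp T).differentiableAt).comp t h1
  have hrel : (fun t => h t ^ b) =ᶠ[𝓝 t₁] fun t => g t ^ a := by
    filter_upwards [hγZ] with t ht
    exact hG'.rel (γ t) ht w hwK
  have hord := analyticOrderAt_congr hrel
  have e1 : analyticOrderAt (fun t => h t ^ b) t₁ = b • analyticOrderAt h t₁ := analyticOrderAt_pow hha b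
  have e2 : analyticOrderAt (fun t => g t ^ a) t₁ = a • analyticOrderAt g t₁ := analyticOrderAt_pow hga a
  rw [e1, e2, hm] at hord
  have hb0 : b ≠ 0 := by omega
  have hfin : analyticOrderAt h t₁ ≠ ⊤ := by
    intro htop
    rw [htop] at hord
    simp only [nsmul_eq_mul] at hord
    rw [ENat.mul_top (by exact_mod_cast hb0)] at hord
    exact (ENat.natCast_ne_top (a * m)) (by rw [Nat.cast_mul]; exact hord.symm)
  obtain ⟨n, hn⟩ := ENat.ne_top_iff_exists.1 hfin
  rw [← hn] at hord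
  simp only [nsmul_eq_mul] at hord
  have hnat : b * n = a * m := by exact_mod_cast hord
  have hdvd : b ∣ m := by
    have h1 : b ∣ a * m := ⟨n, hnat.symm⟩
    exact (Nat.Coprime.symm hab).dvd_of_dvd_mul_left h1
  have := Nat.le_of_dvd (by omega) hdvd
  omega

end main

end R6322

export R6322 (pair_final)

end PFrame
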