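import Pool.Agent.Helper237.PR.Defs

set_option autoImplicit false

open Metric Set Filter Topology

namespace PFrame

namespace R6314

section kernel

variable {W : Type} [NormedAddCommGroup W] [InnerProductSpace ℂ W]

variable {E : Type} [NormedAddCommGroup E] [InnerProductSpace ℂ E]

end kernel

section generalW

variable {W : Type} [NormedAddCommGroup W] [InnerProductSpace ℂ W]
  {E : Type} [NormedAddCommGroup E] [InnerProductSpace ℂ E]
  {p : ℝ} {a b : ℕ} {v : W → E} {J : E →L[ℂ] E}

/-- positivity of the quadratic form gives positive semidefiniteness -/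
theorem PD_of_quad (hΦ : IsFeat p v J) {S : Set W} (hS : S ⊆ ball 0 1)
    (h : ∀ x ∈ Submodule.span ℂ (v '' S), 0 ≤ (inner ℂ x (J x)).re) : PD p S := by
  intro s a hs
  set x : E := ∑ u ∈ s, a u • v u with hx
  have hxs : x ∈ Submodule.span ℂ (v '' S) :=
    Submodule.sum_mem _ (fun u hu => Submodule.smul_mem _ _ (Submodule.subset_span ⟨u, hs hu, rfl⟩))
  have h1 := h x hxs
  have h2 : inner ℂ x (J x)
      = ∑ u ∈ s, ∑ w ∈ s, a u * (starRingEnd ℂ) (a w) * (1 + inner ℂ w u) ^ (p : ℂ) := by
    rw [hx, map_sum, inner_sum]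
    apply Finset.sum_congr rfl
    intro u hu
    rw [sum_inner]
    apply Finset.sum_congr rfl
    intro w hw
    rw [map_smul, inner_smul_left, inner_smul_right, hΦ.ker u (hS (hs hu)) w (hS (hs hw))]
    ring
  rw [← h2]
  exact h1

end generalW

end R6314

export R6314 (PD_of_quad)

end PFrame
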