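import Pool.Agent.Helper237.PR.Defs

set_option autoImplicit false

open Metric Set Filter Topology

namespace PFrame

namespace R6312

theorem norm_inner_self_eq_norm_mul_norm_aux {E : Type} [NormedAddCommGroup E]
    [InnerProductSpace ℂ E] (z : E) : ‖inner ℂ z z‖ = ‖z‖ * ‖z‖ := by
  rw [inner_self_eq_norm_sq_to_K]
  simp [sq]

/-- ultralimits of bounded sequences of operators -/
theorem wot_limit {E : Type} [NormedAddCommGroup E] [InnerProductSpace ℂ E] [CompleteSpace E]
    (T : ℕ → E →L[ℂ] E) (C : ℝ) (hT : ∀ n, ‖T n‖ ≤ C) (𝒰 : Ultrafilter ℕ) :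
    ∃ T' : E →L[ℂ] E, ‖T'‖ ≤ C ∧ ∀ (x y : ℕ → E) (x' y' : E), Tendsto x 𝒰 (𝓝 x') →
      Tendsto y 𝒰 (𝓝 y') → Tendsto (fun n => inner ℂ (y n) (T n (x n))) 𝒰
        (𝓝 (inner ℂ y' (T' x'))) := by
  have hC0 : 0 ≤ C := (norm_nonneg _).trans (hT 0)
  have hbd : ∀ n v w, ‖inner ℂ (T n v) w‖ ≤ C * ‖v‖ * ‖w‖ := by
    intro n v w
    refine (norm_inner_le_norm _ _).trans ?_
    refine mul_le_mul_of_nonneg_right ?_ (norm_nonneg _)
    exact ((T n).le_opNorm v).trans (mul_le_mul_of_nonneg_right (hT n) (norm_nonneg _))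
  have hlim : ∀ v w : E, ∃ b : ℂ, Tendsto (fun n => inner ℂ (T n v) w) 𝒰 (𝓝 b) ∧
      ‖b‖ ≤ C * ‖v‖ * ‖w‖ := by
    intro v w
    have hK : IsCompact (Metric.closedBall (0 : ℂ) (C * ‖v‖ * ‖w‖)) := isCompact_closedBall _ _
    obtain ⟨b, hb, hle⟩ := hK.ultrafilter_le_nhds (𝒰.map (fun n => inner ℂ (T n v) w)) (by
      rw [Ultrafilter.coe_map, le_principal_iff, mem_map]
      refine Filter.univ_mem' fun n => ?_
      simpa using hbd n v w)
    exact ⟨b, hle, by simpa using hb⟩
  choose b hb1 hb2 using hlim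
  let B0 : E →ₛₗ[starRingEnd ℂ] E →ₗ[ℂ] ℂ := LinearMap.mk₂'ₛₗ (starRingEnd ℂ) (RingHom.id ℂ) b
    (fun v v' w => by
      refine tendsto_nhds_unique (hb1 (v + v') w) ?_
      refine ((hb1 v w).add (hb1 v' w)).congr fun n => ?_
      rw [map_add, inner_add_left])
    (fun c v w => by
      refine tendsto_nhds_unique (hb1 (c • v) w) ?_
      refine ((hb1 v w).const_mul ((starRingEnd ℂ) c)).congr fun n => ?_
      rw [map_smul, inner_smul_left])
    (fun v w w' => by
      refine tendsto_nhds_unique (hb1 v (w + w')) ?_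
      refine ((hb1 v w).add (hb1 v w')).congr fun n => ?_
      rw [inner_add_right])
    (fun c v w => by
      refine tendsto_nhds_unique (hb1 v (c • w)) ?_
      refine ((hb1 v w).const_mul c).congr fun n => ?_
      rw [inner_smul_right])
  let B : E →L⋆[ℂ] E →L[ℂ] ℂ := B0.mkContinuous₂ C hb2
  have hB : ∀ v w, B v w = b v w := fun v w => rfl
  have hT' : ∀ v w, inner ℂ (InnerProductSpace.continuousLinearMapOfBilin B v) w = b v w := by
    intro v w
    rw [InnerProductSpace.continuousLinearMapOfBilin_apply, hB]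
  refine ⟨InnerProductSpace.continuousLinearMapOfBilin B, ?_, ?_⟩
  · refine ContinuousLinearMap.opNorm_le_bound _ hC0 fun v => ?_
    obtain ⟨z, hz⟩ : ∃ z, z = InnerProductSpace.continuousLinearMapOfBilin B v := ⟨_, rfl⟩
    rw [← hz]
    have h1 : ‖z‖ * ‖z‖ ≤ C * ‖v‖ * ‖z‖ := by
      rw [← norm_inner_self_eq_norm_mul_norm_aux (z := z)]
      have h2 := hT' v z
      rw [← hz] at h2
      rw [h2]
      exact hb2 v z
    by_cases h0 : ‖z‖ = 0
    · rw [h0]
      exact mul_nonneg hC0 (norm_nonneg _)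
    · have hpos : 0 < ‖z‖ := lt_of_le_of_ne (norm_nonneg _) (Ne.symm h0)
      exact le_of_mul_le_mul_right h1 hpos
  · intro x y x' y' hx hy
    have h1 : Tendsto (fun n => inner ℂ y' (T n x')) 𝒰
        (𝓝 (inner ℂ y' (InnerProductSpace.continuousLinearMapOfBilin B x'))) := by
      have h2 := (Complex.continuous_conj.tendsto _).comp (hb1 x' y')
      rw [← hT' x' y', inner_conj_symm] at h2
      refine h2.congr fun n => ?_
      exact inner_conj_symm _ _
    have h2 : Tendsto (fun n => inner ℂ (y n) (T n (x n)) - inner ℂ y' (T n x')) 𝒰 (𝓝 0) := by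
      have hb : ∀ n, ‖inner ℂ (y n) (T n (x n)) - inner ℂ y' (T n x')‖
          ≤ ‖y n - y'‖ * (C * ‖x n‖) + ‖y'‖ * (C * ‖x n - x'‖) := by
        intro n
        have h3 : inner ℂ (y n) (T n (x n)) - inner ℂ y' (T n x')
            = inner ℂ (y n - y') (T n (x n)) + inner ℂ y' (T n (x n - x')) := by
          rw [inner_sub_left, map_sub, inner_sub_right]
          ring
        rw [h3]
        refine (norm_add_le _ _).trans (add_le_add ?_ ?_)
        · refine (norm_inner_le_norm _ _).trans (mul_le_mul_of_nonneg_left ?_ (norm_nonneg _))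
          exact ((T n).le_opNorm _).trans (mul_le_mul_of_nonneg_right (hT n) (norm_nonneg _))
        · refine (norm_inner_le_norm _ _).trans (mul_le_mul_of_nonneg_left ?_ (norm_nonneg _))
          exact ((T n).le_opNorm _).trans (mul_le_mul_of_nonneg_right (hT n) (norm_nonneg _))
      have hlim0 : Tendsto (fun n => ‖y n - y'‖ * (C * ‖x n‖) + ‖y'‖ * (C * ‖x n - x'‖)) 𝒰
          (𝓝 (‖y' - y'‖ * (C * ‖x'‖) + ‖y'‖ * (C * ‖x' - x'‖))) :=
        (((hy.sub_const y').norm).mul ((hx.norm).const_mul C)).add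
          ((((hx.sub_const x').norm).const_mul C).const_mul ‖y'‖)
      simp only [sub_self, norm_zero, zero_mul, mul_zero, add_zero] at hlim0
      exact squeeze_zero_norm hb hlim0
    have h3 := h2.add h1
    rw [zero_add] at h3
    refine h3.congr fun n => ?_
    ring

end R6312

export R6312 (wot_limit)

end PFrame
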