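import Pool.Agent.Helper237.PR.Defs
import Pool.Agent.Helper237.PF.Farthest
import Pool.Agent.Helper237.PF.Hyper
import Pool.Agent.Helper237.PF.Quad
import Pool.Agent.Helper237.PR.Pdquad
import Pool.Agent.Helper237.PR.Phull
import Pool.Agent.Helper237.PR.Wot

set_option autoImplicit false

open Metric Set Filter Topology

namespace PFrame

namespace R6320

section kernel

variable {W : Type} [NormedAddCommGroup W] [InnerProductSpace ℂ W]

variable {E : Type} [NormedAddCommGroup E] [InnerProductSpace ℂ E]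

end kernel

section generalW

variable {W : Type} [NormedAddCommGroup W] [InnerProductSpace ℂ W]
  {E : Type} [NormedAddCommGroup E] [InnerProductSpace ℂ E]
  {p : ℝ} {a b : ℕ} {v : W → E} {J : E →L[ℂ] E}

end generalW

section aux13

/-- ultralimits of bounded sequences in proper spaces -/
theorem ulim_exists {X : Type*} [PseudoMetricSpace X] [ProperSpace X] (𝒰 : Ultrafilter ℕ)
    (x0 : X) (r : ℝ) (f : ℕ → X) (hf : ∀ n, f n ∈ closedBall x0 r) :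
    ∃ x ∈ closedBall x0 r, Tendsto f 𝒰 (𝓝 x) := by
  have h1 : (↑(𝒰.map f) : Filter X) ≤ 𝓟 (closedBall x0 r) := by
    rw [Filter.le_principal_iff]
    show f ⁻¹' (closedBall x0 r) ∈ 𝒰
    have : f ⁻¹' (closedBall x0 r) = Set.univ := by
      ext n
      simp only [Set.mem_preimage, Set.mem_univ, iff_true]
      exact hf n
    rw [this]
    exact Filter.univ_mem
  obtain ⟨x, hx, hx2⟩ := (isCompact_closedBall x0 r).ultrafilter_le_nhds (𝒰.map f) h1
  exact ⟨x, hx, hx2⟩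

/-- limits of points of the sets `H n` along `𝒰` -/
def limS {W : Type} [NormedAddCommGroup W] (𝒰 : Ultrafilter ℕ) (H : ℕ → Set W) : Set W :=
  {u | u ∈ ball (0 : W) 1 ∧ ∃ f : ℕ → W, (∀ n, f n ∈ H n) ∧ Tendsto f 𝒰 (𝓝 u)}

variable {W : Type} [NormedAddCommGroup W] [InnerProductSpace ℂ W]
  {E : Type} [NormedAddCommGroup E] [InnerProductSpace ℂ E]
  {p : ℝ} {v : W → E} {J : E →L[ℂ] E}

theorem limS_acc [ProperSpace W] (𝒰 : Ultrafilter ℕ) (H : ℕ → Set W)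
    (hH : ∀ n, ∀ r, 0 < r → r < 1 → ∃ z ∈ H n, ‖z‖ = r) : AccPt 0 (𝓟 (limS 𝒰 H)) := by
  rw [accPt_iff_nhds]
  intro U hU
  obtain ⟨ε, hε, hεU⟩ := Metric.mem_nhds_iff.1 hU
  set r := min (ε / 2) (1 / 2) with hr
  have hr0 : 0 < r := lt_min (by positivity) (by norm_num)
  have hr1 : r < 1 := lt_of_le_of_lt (min_le_right _ _) (by norm_num)
  have hrε : r < ε := lt_of_le_of_lt (min_le_left _ _) (by linarith)
  choose z hz hzr using fun n => hH n r hr0 hr1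
  obtain ⟨x, hx, hx2⟩ := ulim_exists 𝒰 (0 : W) r z (fun n => by
    rw [mem_closedBall_zero_iff, hzr])
  have hxr : ‖x‖ = r := by
    have h1 := hx2.norm
    simp only [hzr] at h1
    exact (tendsto_nhds_unique h1 tendsto_const_nhds)
  refine ⟨x, ⟨hεU ?_, ?_, z, hz, hx2⟩, ?_⟩
  · rw [mem_ball_zero_iff, hxr]
    exact hrε
  · rw [mem_ball_zero_iff, hxr]
    exact hr1
  · intro h0
    rw [h0, norm_zero] at hxr
    exact hr0.ne hxr

theorem limS_feat (hΦ : IsFeat p v J) {𝒰 : Ultrafilter ℕ} {f : ℕ → W} {u : W}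
    (hu : u ∈ ball (0 : W) 1) (hf : Tendsto f 𝒰 (𝓝 u)) :
    Tendsto (fun n => v (f n)) 𝒰 (𝓝 (v u)) := by
  have h1 : ContinuousAt v u := hΦ.smooth.continuousOn.continuousAt (isOpen_ball.mem_nhds hu)
  exact h1.tendsto.comp hf

theorem limS_span (hΦ : IsFeat p v J) {𝒰 : Ultrafilter ℕ} {H : ℕ → Set W} {x : E}
    (hx : x ∈ Submodule.span ℂ (v '' limS 𝒰 H)) :
    ∃ xs : ℕ → E, (∀ n, xs n ∈ Submodule.span ℂ (v '' H n)) ∧ Tendsto xs 𝒰 (𝓝 x) := by
  induction hx using Submodule.span_induction with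
  | mem x hx =>
    obtain ⟨u, ⟨hu, f, hf, hfu⟩, rfl⟩ := hx
    exact ⟨fun n => v (f n), fun n => Submodule.subset_span ⟨f n, hf n, rfl⟩,
      limS_feat hΦ hu hfu⟩
  | zero => exact ⟨fun _ => 0, fun n => Submodule.zero_mem _, tendsto_const_nhds⟩
  | add x y _ _ hx hy =>
    obtain ⟨xs, h1, h2⟩ := hx
    obtain ⟨ys, h3, h4⟩ := hy
    exact ⟨fun n => xs n + ys n, fun n => Submodule.add_mem _ (h1 n) (h3 n), h2.add h4⟩
  | smul c x _ hx =>
    obtain ⟨xs, h1, h2⟩ := hx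
    exact ⟨fun n => c • xs n, fun n => Submodule.smul_mem _ _ (h1 n), h2.const_smul c⟩

theorem limS_pd (hΦ : IsFeat p v J) {𝒰 : Ultrafilter ℕ} {H : ℕ → Set W}
    (hH : ∀ n, H n ⊆ ball 0 1) (hPD : ∀ n, PD p (H n)) : PD p (limS 𝒰 H) := by
  apply PD_of_quad hΦ (fun u hu => hu.1)
  intro x hx
  obtain ⟨xs, h1, h2⟩ := limS_span hΦ hx
  have h3 : Tendsto (fun n => (inner ℂ (xs n) (J (xs n)) : ℂ).re) 𝒰
      (𝓝 (inner ℂ x (J x) : ℂ).re) :=
    (Complex.continuous_re.tendsto _).comp (h2.inner ((J.continuous.tendsto x).comp h2))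
  apply ge_of_tendsto h3
  apply Eventually.of_forall
  intro n
  exact quad_nonneg hΦ (hH n) (hPD n) _ (Submodule.le_topologicalClosure _ (h1 n))

end aux13

section main

variable {p : ℝ} {d : ℕ} {E : Type} [NormedAddCommGroup E] [InnerProductSpace ℂ E]
  [CompleteSpace E] {v : EuclideanSpace ℂ (Fin (d + 1)) → E} {J : E →L[ℂ] E} {a b : ℕ}

theorem pair_limit (hp : 0 < p) (hno : NoPD p d) (hΦ : IsFeat p v J)
    (A : ℕ → WithLp 2 (ℂ × EuclideanSpace ℂ (Fin (d + 1))) →L[ℂ]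
      WithLp 2 (ℂ × EuclideanSpace ℂ (Fin (d + 1))))
    (S Y : ℕ → Set (EuclideanSpace ℂ (Fin (d + 1)))) (T : ℕ → (E →L[ℂ] E))
    (hG : ∀ n, GoodP p a b v J (A n) (S n) (Y n) (T n)) (M : ℝ)
    (hM : Tendsto (fun n => ‖(inner ℂ (hom 0) (A n (hom 0)) : ℂ)‖) atTop (𝓝 M)) :
    ∃ A' S' Y' T', GoodP p a b v J A' S' Y' T' ∧ ‖(inner ℂ (hom 0) (A' (hom 0)) : ℂ)‖ = M := by
  classical
  set 𝒰 : Ultrafilter ℕ := hyperfilter ℕ with h𝒰
  have h𝒰t : (𝒰 : Filter ℕ) ≤ atTop := Nat.hyperfilter_le_atTop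
  set H : ℕ → Set (EuclideanSpace ℂ (Fin (d + 1))) := fun n => hull (ball 0 1) (S n) with hH
  set K : ℕ → Set (EuclideanSpace ℂ (Fin (d + 1))) := fun n => hull (ball 0 1) (Y n) with hK
  have hGH : ∀ n, GoodP p a b v J (A n) (H n) (K n) (T n) := fun n => pair_hull hΦ (hG n)
  -- limit of `A`
  obtain ⟨A', _, hA'⟩ := ulim_exists 𝒰 (0 : WithLp 2 (ℂ × EuclideanSpace ℂ (Fin (d + 1))) →L[ℂ]
      WithLp 2 (ℂ × EuclideanSpace ℂ (Fin (d + 1)))) 1 A (fun n => by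
    rw [mem_closedBall_zero_iff]
    apply ContinuousLinearMap.opNorm_le_bound _ zero_le_one
    intro x
    rw [(hG n).iso, one_mul])
  have hAx : ∀ (xs : ℕ → WithLp 2 (ℂ × EuclideanSpace ℂ (Fin (d + 1))))
      (x : WithLp 2 (ℂ × EuclideanSpace ℂ (Fin (d + 1)))), Tendsto xs 𝒰 (𝓝 x) →
      Tendsto (fun n => A n (xs n)) 𝒰 (𝓝 (A' x)) := by
    intro xs x hx
    have h1 := (isBoundedBilinearMap_apply (𝕜 := ℂ)
      (E := WithLp 2 (ℂ × EuclideanSpace ℂ (Fin (d + 1))))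
      (F := WithLp 2 (ℂ × EuclideanSpace ℂ (Fin (d + 1))))).continuous
    exact (h1.tendsto (A', x)).comp (hA'.prodMk_nhds hx)
  have hiso : ∀ x, ‖A' x‖ = ‖x‖ := by
    intro x
    have h1 := (hAx (fun _ => x) x tendsto_const_nhds).norm
    simp only [fun n => (hG n).iso x] at h1
    exact tendsto_nhds_unique h1 tendsto_const_nhds |>.symm ▸ rfl
  -- limit of `T`
  obtain ⟨T', hT'n, hT'⟩ := wot_limit T ‖J‖ (fun n => (hG n).nrm) 𝒰
  have hradS : ∀ n, ∀ r, 0 < r → r < 1 → ∃ z ∈ H n, ‖z‖ = r := by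
    intro n r hr hr1
    have hsub : hull (ball 0 1) (S n) ⊆ ball 0 1 := fun z hz => hz.1
    obtain ⟨z, hz, hzr⟩ := farthest (0 : EuclideanSpace ℂ (Fin (d + 1))) 1 (S n) (hG n).subS
      (hG n).accS (fun b hb ℓ hℓ => hyper hno hsub (hGH n).pdS hb ℓ hℓ) r hr hr1
    rw [sub_zero] at hzr
    exact ⟨z, hz, hzr⟩
  have hradY : ∀ n, ∀ r, 0 < r → r < 1 → ∃ z ∈ K n, ‖z‖ = r := by
    intro n r hr hr1
    have hsub : hull (ball 0 1) (Y n) ⊆ ball 0 1 := fun z hz => hz.1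
    obtain ⟨z, hz, hzr⟩ := farthest (0 : EuclideanSpace ℂ (Fin (d + 1))) 1 (Y n) (hG n).subY
      (hG n).accY (fun b hb ℓ hℓ => hyper hno hsub (hGH n).pdY hb ℓ hℓ) r hr hr1
    rw [sub_zero] at hzr
    exact ⟨z, hz, hzr⟩
  have hquad : ∀ (xs : ℕ → E) (x : E), Tendsto xs 𝒰 (𝓝 x) →
      Tendsto (fun n => (inner ℂ (xs n) (J (xs n)) : ℂ).re) 𝒰 (𝓝 (inner ℂ x (J x) : ℂ).re) := by
    intro xs x hx
    exact (Complex.continuous_re.tendsto _).comp (hx.inner ((J.continuous.tendsto x).comp hx))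
  have hhom : Continuous (fun u : EuclideanSpace ℂ (Fin (d + 1)) => hom u) := by
    unfold hom
    fun_prop
  refine ⟨A', limS 𝒰 H, limS 𝒰 K, T', ?_, ?_⟩
  · refine ⟨fun u hu => hu.1, fun u hu => hu.1, limS_acc 𝒰 H hradS, limS_acc 𝒰 K hradY,
      limS_pd hΦ (fun n => (hGH n).subS) (fun n => (hGH n).pdS),
      limS_pd hΦ (fun n => (hGH n).subY) (fun n => (hGH n).pdY), hiso, ?_, ?_, hT'n⟩
    · intro x hx y hy
      obtain ⟨xs, hx1, hx2⟩ := limS_span hΦ hx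
      obtain ⟨ys, hy1, hy2⟩ := limS_span hΦ hy
      have h1 : Tendsto (fun n => ‖(inner ℂ (ys n) (T n (xs n)) : ℂ)‖ ^ 2) 𝒰
          (𝓝 (‖(inner ℂ y (T' x) : ℂ)‖ ^ 2)) := ((hT' xs ys x y hx2 hy2).norm).pow 2
      have h2 := (hquad xs x hx2).mul (hquad ys y hy2)
      exact le_of_tendsto_of_tendsto h1 h2 (Eventually.of_forall fun n =>
        (hGH n).bound _ (hx1 n) _ (hy1 n))
    · rintro s ⟨hs, f, hf, hfs⟩ η ⟨hη, g, hg, hgη⟩
      have h1 : Tendsto (fun n => (inner ℂ (v (g n)) (T n (v (f n))) : ℂ) ^ b) 𝒰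
          (𝓝 ((inner ℂ (v η) (T' (v s)) : ℂ) ^ b)) :=
        (hT' _ _ _ _ (limS_feat hΦ hs hfs) (limS_feat hΦ hη hgη)).pow b
      have h2 : Tendsto (fun n => (inner ℂ (hom (g n)) (A n (hom (f n))) : ℂ) ^ a) 𝒰
          (𝓝 ((inner ℂ (hom η) (A' (hom s)) : ℂ) ^ a)) := by
        apply Tendsto.pow
        apply Tendsto.inner
        · exact (hhom.tendsto η).comp hgη
        · exact hAx _ _ ((hhom.tendsto s).comp hfs)
      have h3 : (fun n => (inner ℂ (v (g n)) (T n (v (f n))) : ℂ) ^ b) =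
          fun n => (inner ℂ (hom (g n)) (A n (hom (f n))) : ℂ) ^ a := by
        funext n
        exact (hGH n).rel _ (hf n) _ (hg n)
      rw [h3] at h1
      exact tendsto_nhds_unique h1 h2
  · have h1 : Tendsto (fun n => ‖(inner ℂ (hom 0) (A n (hom 0)) : ℂ)‖) 𝒰
        (𝓝 ‖(inner ℂ (hom 0) (A' (hom 0)) : ℂ)‖) :=
      (tendsto_const_nhds.inner (hAx _ _ tendsto_const_nhds)).norm
    exact tendsto_nhds_unique h1 (hM.mono_left h𝒰t)

end main

end R6320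

export R6320 (pair_limit)

end PFrame
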