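import Pool.Agent.Helper237.PR.Defs
import Pool.Agent.Helper237.PF.Quad
import Pool.Agent.Helper237.PF.Tau
import Pool.Agent.Helper237.PR.Ext
import Pool.Agent.Helper237.PR.Iso
import Pool.Agent.Helper237.PR.Pdquad
import Pool.Agent.Helper237.PR.Rk

set_option autoImplicit false

open Metric Set Filter Topology

namespace PFrame

namespace R6319

section kernel

variable {W : Type} [NormedAddCommGroup W] [InnerProductSpace ℂ W]

variable {E : Type} [NormedAddCommGroup E] [InnerProductSpace ℂ E]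

end kernel

section generalW

variable {W : Type} [NormedAddCommGroup W] [InnerProductSpace ℂ W]
  {E : Type} [NormedAddCommGroup E] [InnerProductSpace ℂ E]
  {p : ℝ} {a b : ℕ} {v : W → E} {J : E →L[ℂ] E}

theorem h441_norm_ofRealSq (c : W) : (1 : ℂ) + inner ℂ c c = ((1 + ‖c‖ ^ 2 : ℝ) : ℂ) := by
  rw [inner_self_eq_norm_sq_to_K]
  push_cast
  rfl

theorem h441_kap_pow {p : ℝ} {a b : ℕ} (hpab : p * b = a) (c u : W) :
    (kap p c u) ^ b = ((((Real.sqrt (1 + ‖c‖ ^ 2) : ℝ) : ℂ) / (1 + inner ℂ c u))) ^ a := by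
  unfold kap
  rw [mul_pow, div_pow]
  have hpos : (0 : ℝ) < 1 + ‖c‖ ^ 2 := by positivity
  have h1 : (((((1 + ‖c‖ ^ 2) ^ (p / 2) : ℝ) : ℂ)) ^ b) =
      (((Real.sqrt (1 + ‖c‖ ^ 2) : ℝ) : ℂ)) ^ a := by
    rw [← Complex.ofReal_pow, ← Complex.ofReal_pow]
    congr 1
    generalize 1 + ‖c‖ ^ 2 = X at hpos ⊢
    rw [← Real.rpow_natCast, ← Real.rpow_mul hpos.le, Real.sqrt_eq_rpow, ← Real.rpow_natCast,
      ← Real.rpow_mul hpos.le]
    congr 1
    rw [← hpab]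
    ring
  have h2 : ((1 + inner ℂ c u : ℂ) ^ (-(p : ℂ))) ^ b = ((1 + inner ℂ c u : ℂ) ^ a)⁻¹ := by
    rw [← Complex.cpow_nat_mul, show (b : ℂ) * (-(p : ℂ)) = -((a : ℕ) : ℂ) by
      have : ((p * b : ℝ) : ℂ) = ((a : ℝ) : ℂ) := by rw [hpab]
      push_cast at this
      rw [← this]
      ring, Complex.cpow_neg, Complex.cpow_natCast]
  rw [h1, h2]
  rfl

theorem h441_quad {V : Type} (f g : V → E) (J : E →L[ℂ] E)
    (h : ∀ u w, inner ℂ (f w) (J (f u)) = inner ℂ (g w) (J (g u))) (a : V →₀ ℂ) :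
    inner ℂ (Finsupp.linearCombination ℂ f a) (J (Finsupp.linearCombination ℂ f a)) =
      (inner ℂ (Finsupp.linearCombination ℂ g a) (J (Finsupp.linearCombination ℂ g a)) : ℂ) := by
  simp only [Finsupp.linearCombination_apply, Finsupp.sum, map_sum, sum_inner, inner_sum, map_smul,
    inner_smul_left, inner_smul_right, h]

theorem pair_recenter [CompleteSpace E] (hp : 0 < p) (hpab : p * b = a) (hΦ : IsFeat p v J)
    {A : WithLp 2 (ℂ × W) →L[ℂ] WithLp 2 (ℂ × W)} {S Y : Set W} {T : E →L[ℂ] E}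
    (hG : GoodP p a b v J A S Y T) {c : W} (hc : c ∈ ball (0 : W) 1) (hacc : AccPt c (𝓟 S)) :
    ∃ A' S' T', GoodP p a b v J A' S' Y T' ∧
      ‖(inner ℂ (hom 0) (A' (hom 0)) : ℂ)‖ =
        ‖(inner ℂ (hom 0) (A (hom c)) : ℂ)‖ / Real.sqrt (1 + ‖c‖ ^ 2) :=
  by
  obtain ⟨ε, hε, h1, h2⟩ := recenter_kernel (W := W) p hc
  obtain ⟨Q, hQ1, hQ2⟩ := chart_isometry (W := W) c
  set S0 : Set W := S ∩ ball c ε with hS0
  have hmem : ∀ u : S0, (u : W) ∈ ball (0 : W) 1 ∩ ball c ε := fun u => ⟨hG.subS u.2.1, u.2.2⟩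
  set f : S0 → E := fun u => v (tau c u) with hf
  set g : S0 → E := fun u => kap p c u • v u with hg
  have hfg : ∀ u w : S0, inner ℂ (f w) (J (f u)) = (inner ℂ (g w) (J (g u)) : ℂ) := by
    intro u w
    simp only [hf, hg]
    rw [map_smul, inner_smul_left, inner_smul_right,
      hΦ.ker _ (h1 u (hmem u)).1 _ (h1 w (hmem w)).1, hΦ.ker _ (hmem u).1 _ (hmem w).1,
      (h1 u (hmem u)).2.2 w (hmem w)]
    ring
  set Φ : (S0 →₀ ℂ) →ₗ[ℂ] E := Finsupp.linearCombination ℂ f with hPhi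
  set Ψ : (S0 →₀ ℂ) →ₗ[ℂ] E := Finsupp.linearCombination ℂ g with hPsi
  have hquad : ∀ a, inner ℂ (Φ a) (J (Φ a)) = (inner ℂ (Ψ a) (J (Ψ a)) : ℂ) :=
    fun a => h441_quad f g J hfg a
  have hrange : ∀ x ∈ Submodule.span ℂ (v '' (tau c '' S0)), ∃ a, Φ a = x := by
    intro x hx
    have e1 : v '' (tau c '' S0) = Set.range f := by
      rw [Set.image_image, Set.image_eq_range]
    rw [e1, ← Finsupp.range_linearCombination] at hx
    exact hx
  have hΨmem : ∀ a, Ψ a ∈ Submodule.span ℂ (v '' S) := by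
    intro a
    rw [hPsi, Finsupp.linearCombination_apply]
    refine Submodule.sum_mem _ fun u _ => Submodule.smul_mem _ _ (Submodule.smul_mem _ _ ?_)
    exact Submodule.subset_span ⟨u, u.2.1, rfl⟩
  have hMM : ∀ (R : Set W), Submodule.span ℂ (v '' R) ≤ MM v R :=
    fun R => Submodule.le_topologicalClosure _
  have hΨnn : ∀ a, 0 ≤ (inner ℂ (Ψ a) (J (Ψ a)) : ℂ).re := fun a =>
    quad_nonneg hΦ hG.subS hG.pdS _ (hMM S (hΨmem a))
  have hYnn : ∀ y ∈ Submodule.span ℂ (v '' Y), 0 ≤ (inner ℂ y (J y) : ℂ).re := fun y hy =>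
    quad_nonneg hΦ hG.subY hG.pdY _ (hMM Y hy)
  have hJ : ∀ x : E, (inner ℂ x (J x) : ℂ).re ≤ ‖J‖ * ‖x‖ ^ 2 := by
    intro x
    calc (inner ℂ x (J x) : ℂ).re ≤ ‖(inner ℂ x (J x) : ℂ)‖ := Complex.re_le_norm _
      _ ≤ ‖x‖ * ‖J x‖ := norm_inner_le_norm _ _
      _ ≤ ‖x‖ * (‖J‖ * ‖x‖) := mul_le_mul_of_nonneg_left (J.le_opNorm x) (norm_nonneg _)
      _ = ‖J‖ * ‖x‖ ^ 2 := by ring
  obtain ⟨T', hT'1, hT'2⟩ := ext_op Φ Ψ T (Submodule.span ℂ (v '' Y)) ‖J‖ (norm_nonneg _) (by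
    intro a y hy
    have hb := hG.bound (Ψ a) (hΨmem a) y hy
    rw [← hquad a] at hb
    have hb2 : ‖(inner ℂ y (T (Ψ a)) : ℂ)‖ ^ 2 ≤ (‖J‖ * ‖Φ a‖ * ‖y‖) ^ 2 := by
      refine hb.trans ?_
      calc (inner ℂ (Φ a) (J (Φ a)) : ℂ).re * (inner ℂ y (J y) : ℂ).re
          ≤ (‖J‖ * ‖Φ a‖ ^ 2) * (‖J‖ * ‖y‖ ^ 2) :=
            mul_le_mul (hJ _) (hJ _) (hYnn y hy) (by positivity)
        _ = (‖J‖ * ‖Φ a‖ * ‖y‖) ^ 2 := by ring
    exact (pow_le_pow_iff_left₀ (norm_nonneg _) (by positivity) (by norm_num)).mp hb2)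
  refine ⟨A.comp Q, tau c '' S0, T', ⟨?_, hG.subY, h2 S hacc, hG.accY, ?_, hG.pdY, ?_, ?_, ?_,
    hT'1⟩, ?_⟩
  · rintro _ ⟨u, hu, rfl⟩
    exact (h1 u (hmem ⟨u, hu⟩)).1
  · apply PD_of_quad hΦ
    · rintro _ ⟨u, hu, rfl⟩
      exact (h1 u (hmem ⟨u, hu⟩)).1
    · intro x hx
      obtain ⟨a, rfl⟩ := hrange x hx
      rw [hquad a]
      exact hΨnn a
  · intro x
    rw [ContinuousLinearMap.comp_apply, hG.iso, hQ1]
  · intro x hx y hy
    obtain ⟨a, rfl⟩ := hrange x hx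
    rw [hT'2 a y hy, hquad a]
    exact hG.bound (Ψ a) (hΨmem a) y hy
  · rintro _ ⟨u, hu, rfl⟩ η hη
    have e1 : Φ (Finsupp.single ⟨u, hu⟩ 1) = v (tau c u) := by
      simp [hPhi, hf]
    have e2 : Ψ (Finsupp.single ⟨u, hu⟩ 1) = kap p c u • v u := by
      simp [hPsi, hg]
    have e3 := hT'2 (Finsupp.single ⟨u, hu⟩ 1) (v η) (Submodule.subset_span ⟨η, hη, rfl⟩)
    rw [e1, e2] at e3
    rw [e3, map_smul, inner_smul_right, mul_pow, hG.rel u hu.1 η hη,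
      ContinuousLinearMap.comp_apply, hQ2 u (h1 u (hmem ⟨u, hu⟩)).2.1, map_smul, inner_smul_right,
      mul_pow, h441_kap_pow hpab]
  · have e0 : (1 : ℂ) + inner ℂ c c ≠ 0 := by
      rw [h441_norm_ofRealSq, Complex.ofReal_ne_zero]
      positivity
    have e1 := hQ2 c e0
    rw [tau_self] at e1
    rw [ContinuousLinearMap.comp_apply, e1, map_smul, inner_smul_right, norm_mul]
    have hs : 0 < Real.sqrt (1 + ‖c‖ ^ 2) := Real.sqrt_pos.mpr (by positivity)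
    have e2 : ‖(((Real.sqrt (1 + ‖c‖ ^ 2) : ℝ) : ℂ) / (1 + inner ℂ c c))‖ =
        1 / Real.sqrt (1 + ‖c‖ ^ 2) := by
      rw [h441_norm_ofRealSq, norm_div, Complex.norm_real, Complex.norm_real,
        Real.norm_of_nonneg hs.le, Real.norm_of_nonneg (by positivity)]
      rw [div_eq_div_iff (by positivity) hs.ne', ← sq, Real.sq_sqrt (by positivity)]
      ring
    rw [e2]
    ring

end generalW

end R6319

export R6319 (pair_recenter)

end PFrame
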