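import Pool.Agent.Helper237.PR.Defs
import Pool.Agent.Helper237.PF.Hyper
import Pool.Agent.Helper237.PF.Proj
import Pool.Agent.Helper237.PR.Phull
import Pool.Agent.Helper237.PR.Prec

set_option autoImplicit false

open Metric Set Filter Topology

namespace PFrame

namespace R6321

section kernel

variable {W : Type} [NormedAddCommGroup W] [InnerProductSpace ℂ W]

variable {E : Type} [NormedAddCommGroup E] [InnerProductSpace ℂ E]

end kernel

section generalW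

variable {W : Type} [NormedAddCommGroup W] [InnerProductSpace ℂ W]
  {E : Type} [NormedAddCommGroup E] [InnerProductSpace ℂ E]
  {p : ℝ} {a b : ℕ} {v : W → E} {J : E →L[ℂ] E}

end generalW

section main

variable {p : ℝ} {d : ℕ} {E : Type} [NormedAddCommGroup E] [InnerProductSpace ℂ E]
  [CompleteSpace E] {v : EuclideanSpace ℂ (Fin (d + 1)) → E} {J : E →L[ℂ] E} {a b : ℕ}

theorem pair_move (hp : 0 < p) (hpab : p * b = a) (hno : NoPD p d) (hΦ : IsFeat p v J)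
    {A : WithLp 2 (ℂ × EuclideanSpace ℂ (Fin (d + 1))) →L[ℂ]
      WithLp 2 (ℂ × EuclideanSpace ℂ (Fin (d + 1)))}
    {S Y : Set (EuclideanSpace ℂ (Fin (d + 1)))} {T : E →L[ℂ] E}
    (hG : GoodP p a b v J A S Y T) (h0 : (inner ℂ (hom 0) (A (hom 0)) : ℂ) ≠ 0) :
    ∃ A' S' Y' T', GoodP p a b v J A' S' Y' T' ∧
      ‖(inner ℂ (hom 0) (A' (hom 0)) : ℂ)‖ < ‖(inner ℂ (hom 0) (A (hom 0)) : ℂ)‖ := by
  have hG' := pair_hull hΦ hG
  set α : ℂ := inner ℂ (hom 0) (A (hom 0)) with hα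
  have hαpos : 0 < ‖α‖ := norm_pos_iff.2 h0
  -- the linear part
  let ι : EuclideanSpace ℂ (Fin (d + 1)) →L[ℂ] WithLp 2 (ℂ × EuclideanSpace ℂ (Fin (d + 1))) :=
    ((WithLp.prodContinuousLinearEquiv 2 ℂ ℂ (EuclideanSpace ℂ (Fin (d + 1)))).symm :
      (ℂ × EuclideanSpace ℂ (Fin (d + 1))) →L[ℂ] WithLp 2 (ℂ × EuclideanSpace ℂ (Fin (d + 1)))) ∘L
      (ContinuousLinearMap.inr ℂ ℂ (EuclideanSpace ℂ (Fin (d + 1))))
  have hι : ∀ u, (hom u : WithLp 2 (ℂ × EuclideanSpace ℂ (Fin (d + 1)))) = hom 0 + ι u := by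
    intro u
    show WithLp.toLp 2 ((1 : ℂ), u) = WithLp.toLp 2 ((1 : ℂ), 0) + WithLp.toLp 2 ((0 : ℂ), u)
    rw [← WithLp.toLp_add]
    simp
  let ℓ : EuclideanSpace ℂ (Fin (d + 1)) →L[ℂ] ℂ := (innerSL ℂ (hom 0)) ∘L (A ∘L ι)
  have hℓ : ∀ u, (inner ℂ (hom 0) (A (hom u)) : ℂ) = α + ℓ u := by
    intro u
    rw [hι u, map_add, inner_add_right]
    rfl
  have key : ∀ m : EuclideanSpace ℂ (Fin (d + 1)) →L[ℂ] ℂ, m ≠ 0 →
      ∀ᶠ t in 𝓝 (0 : ℂ), ∃ z ∈ hull (ball 0 1) S ∩ ball 0 1, m z = m 0 + t ∧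
        AccPt z (𝓟 (hull (ball 0 1) S)) := by
    intro m hm
    have hiso := hyper hno hG'.subS hG'.pdS (b := 0) (mem_ball_self one_pos) m hm
    exact proj m hm isOpen_ball (mem_ball_self one_pos) hG.subS hG.accS hiso
      (ball_mem_nhds 0 one_pos)
  have fin : ∀ c : EuclideanSpace ℂ (Fin (d + 1)), c ∈ ball (0 : EuclideanSpace ℂ (Fin (d + 1))) 1 →
      AccPt c (𝓟 (hull (ball 0 1) S)) →
      ‖(inner ℂ (hom 0) (A (hom c)) : ℂ)‖ / Real.sqrt (1 + ‖c‖ ^ 2) < ‖α‖ →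
      ∃ A' S' Y' T', GoodP p a b v J A' S' Y' T' ∧
        ‖(inner ℂ (hom 0) (A' (hom 0)) : ℂ)‖ < ‖α‖ := by
    intro c hc hacc hlt
    obtain ⟨A', S', T', hGG, hn⟩ := pair_recenter hp hpab hΦ hG' hc hacc
    exact ⟨A', S', _, T', hGG, by rw [hn]; exact hlt⟩
  by_cases hl : ℓ = 0
  · let m : EuclideanSpace ℂ (Fin (d + 1)) →L[ℂ] ℂ := EuclideanSpace.proj (0 : Fin (d + 1))
    have hm : m ≠ 0 := by
      intro h
      have h1 : m (EuclideanSpace.single (0 : Fin (d + 1)) (1 : ℂ)) = 0 := by rw [h]; rfl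
      have h2 : m (EuclideanSpace.single (0 : Fin (d + 1)) (1 : ℂ)) = 1 := by
        simp [m]
      rw [h2] at h1
      exact one_ne_zero h1
    have h1 := (key m hm).filter_mono (nhdsWithin_le_nhds (s := {(0 : ℂ)}ᶜ))
    obtain ⟨t, ⟨c, hc, hct, hacc⟩, ht⟩ := (h1.and self_mem_nhdsWithin).exists
    rw [map_zero, zero_add] at hct
    have hc0 : c ≠ 0 := by
      rintro rfl
      rw [map_zero] at hct
      exact ht hct.symm
    apply fin c hc.2 hacc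
    rw [hℓ c, hl, ContinuousLinearMap.zero_apply, add_zero]
    apply div_lt_self hαpos
    have hcn : 0 < ‖c‖ := norm_pos_iff.2 hc0
    rw [Real.lt_sqrt (by norm_num)]
    have : 0 < ‖c‖ ^ 2 := by positivity
    linarith
  · have h1 : Tendsto (fun τ : ℝ => -((τ : ℂ) * α)) (𝓝[>] 0) (𝓝 0) := by
      have hc : Continuous (fun τ : ℝ => -((τ : ℂ) * α)) := by fun_prop
      have h2 := hc.tendsto 0
      simp only [Complex.ofReal_zero, zero_mul, neg_zero] at h2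
      exact h2.mono_left nhdsWithin_le_nhds
    have h2 := h1.eventually (key ℓ hl)
    have h3 : ∀ᶠ τ : ℝ in 𝓝[>] 0, 0 < τ := eventually_mem_nhdsWithin
    have h4 : ∀ᶠ τ : ℝ in 𝓝[>] 0, τ < 1 :=
      mem_nhdsWithin_of_mem_nhds (gt_mem_nhds (by norm_num))
    obtain ⟨τ, ⟨c, hc, hct, hacc⟩, hτ0, hτ1⟩ := (h2.and (h3.and h4)).exists
    rw [map_zero, zero_add] at hct
    apply fin c hc.2 hacc
    rw [hℓ c, hct]
    have e1 : α + -((τ : ℂ) * α) = ((1 - τ : ℝ) : ℂ) * α := by push_cast; ring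
    rw [e1, norm_mul, Complex.norm_real, Real.norm_eq_abs, abs_of_pos (by linarith)]
    have h5 : 1 ≤ Real.sqrt (1 + ‖c‖ ^ 2) := by
      rw [Real.one_le_sqrt]
      have : 0 ≤ ‖c‖ ^ 2 := by positivity
      linarith
    calc (1 - τ) * ‖α‖ / Real.sqrt (1 + ‖c‖ ^ 2) ≤ (1 - τ) * ‖α‖ :=
          div_le_self (by nlinarith) h5
      _ < ‖α‖ := by nlinarith

end main

end R6321

export R6321 (pair_move)

end PFrame
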