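import Pool.Agent.Helper237.PR.Defs
import Pool.Agent.Helper237.PF.Quad

set_option autoImplicit false

open Metric Set Filter Topology

namespace PFrame

namespace R6317

section kernel

variable {W : Type} [NormedAddCommGroup W] [InnerProductSpace ℂ W]

variable {E : Type} [NormedAddCommGroup E] [InnerProductSpace ℂ E]

end kernel

section generalW

variable {W : Type} [NormedAddCommGroup W] [InnerProductSpace ℂ W]
  {E : Type} [NormedAddCommGroup E] [InnerProductSpace ℂ E]
  {p : ℝ} {a b : ℕ} {v : W → E} {J : E →L[ℂ] E}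

theorem pair_start (hp : 0 < p) (hpab : p * b = a) (hΦ : IsFeat p v J) {S : Set W}
    (hS : S ⊆ ball 0 1) (hPD : PD p S) (hacc : AccPt 0 (𝓟 S)) :
    GoodP p a b v J (ContinuousLinearMap.id ℂ _) S S J := by
  refine ⟨hS, hS, hacc, hacc, hPD, hPD, fun x => rfl, ?_, ?_, le_rfl⟩
  · intro x hx y hy
    have hle : Submodule.span ℂ (v '' S) ≤ MM v S := Submodule.le_topologicalClosure _
    have hQ : ∀ z ∈ Submodule.span ℂ (v '' S), 0 ≤ (inner ℂ z (J z)).re := fun z hz =>
      quad_nonneg hΦ hS hPD z (hle hz)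
    set c : ℂ := inner ℂ y (J x) with hc
    have hcc : inner ℂ x (J y) = (starRingEnd ℂ) c := by
      rw [hc, inner_conj_symm, hΦ.symm]
    set Qx := (inner ℂ x (J x)).re with hQx
    set Qy := (inner ℂ y (J y)).re with hQy
    have hQx0 : 0 ≤ Qx := hQ x hx
    have hQy0 : 0 ≤ Qy := hQ y hy
    have key : ∀ s : ℝ, 0 ≤ (‖c‖ ^ 2 * Qy) * (s * s) + (-(2 * ‖c‖ ^ 2)) * s + Qx := by
      intro s
      have h1 := hQ (x + (-(s : ℂ) * c) • y) (Submodule.add_mem _ hx (Submodule.smul_mem _ _ hy))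
      rw [map_add, map_smul, inner_add_left, inner_add_right, inner_add_right, inner_smul_left,
        inner_smul_right, inner_smul_right, inner_smul_left, ← hc, hcc] at h1
      have e1 : (-(s : ℂ) * c) * (starRingEnd ℂ) c = ((-(s * ‖c‖ ^ 2) : ℝ) : ℂ) := by
        have := Complex.mul_conj c
        rw [mul_assoc, this, Complex.normSq_eq_norm_sq]
        push_cast; ring
      have e2 : (starRingEnd ℂ) (-(s : ℂ) * c) * c = ((-(s * ‖c‖ ^ 2) : ℝ) : ℂ) := by
        rw [map_mul, map_neg, Complex.conj_ofReal, mul_assoc, mul_comm ((starRingEnd ℂ) c) c,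
          Complex.mul_conj, Complex.normSq_eq_norm_sq]
        push_cast; ring
      have e3 : (-(s : ℂ) * c) * ((starRingEnd ℂ) (-(s : ℂ) * c) * inner ℂ y (J y)) =
          ((s ^ 2 * ‖c‖ ^ 2 : ℝ) : ℂ) * inner ℂ y (J y) := by
        rw [← mul_assoc, map_mul, map_neg, Complex.conj_ofReal]
        have : (-(s : ℂ) * c) * (-(s : ℂ) * (starRingEnd ℂ) c) = (s : ℂ) ^ 2 * (c * (starRingEnd ℂ) c) := by
          ring
        rw [this, Complex.mul_conj, Complex.normSq_eq_norm_sq]
        push_cast; ring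
      rw [e1, e2, e3, Complex.add_re, Complex.add_re, Complex.add_re, Complex.ofReal_re,
        Complex.re_ofReal_mul, ← hQx, ← hQy] at h1
      nlinarith [h1]
    have hd := discrim_le_zero key
    unfold discrim at hd
    have h2 : ‖c‖ ^ 2 * (‖c‖ ^ 2 - Qx * Qy) ≤ 0 := by nlinarith [hd]
    rcases eq_or_lt_of_le (sq_nonneg ‖c‖) with h3 | h3
    · rw [← h3]
      exact mul_nonneg hQx0 hQy0
    · by_contra hcon
      push Not at hcon
      have : 0 < ‖c‖ ^ 2 * (‖c‖ ^ 2 - Qx * Qy) := mul_pos h3 (by linarith)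
      linarith
  · intro s hs η hη
    rw [hΦ.ker s (hS hs) η (hS hη), ← Complex.cpow_nat_mul]
    have h1 : ((b : ℂ) * (p : ℂ)) = ((a : ℕ) : ℂ) := by
      have : (b : ℝ) * p = a := by rw [mul_comm]; exact hpab
      exact_mod_cast congrArg (fun x : ℝ => (x : ℂ)) this
    rw [h1, Complex.cpow_natCast]
    congr 1
    show _ = inner ℂ (hom η) (hom s)
    unfold hom
    rw [WithLp.prod_inner_apply]
    simp

end generalW

end R6317

export R6317 (pair_start)

end PFrame
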