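import Pool.Agent.Helper237.PF.Feat
import Pool.Agent.Helper237.PF.Main
import Pool.Agent.Helper237.PR.Start
import Pool.Agent.Helper237.PR.Plim
import Pool.Agent.Helper237.PR.Pmove
import Pool.Agent.Helper237.PR.Pfin

set_option autoImplicit false

open Metric Set Filter Topology

namespace PFrame

theorem noPD_rat_succ {p : ℝ} (hp : 0 < p) {a b : ℕ} (hpab : p * b = a) (hab : Nat.Coprime a b)
    {d : ℕ} (hd : d + 1 < b) (hno : NoPD p d) : NoPD p (d + 1) := by
  intro S₀ hS₀ hPD₀ hacc₀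
  obtain ⟨E, _, _, _, v, J, hΦ⟩ := exists_feat p hp (d + 1)
  have hstart := pair_start (a := a) (b := b) hp hpab hΦ hS₀ hPD₀ hacc₀
  set R : Set ℝ := {t | ∃ A S Y T, GoodP p a b v J A S Y T ∧
    ‖(inner ℂ (hom 0) (A (hom 0)) : ℂ)‖ = t} with hR
  have hne : R.Nonempty := ⟨_, _, _, _, _, hstart, rfl⟩
  have hbdd : BddBelow R := ⟨0, by rintro _ ⟨A, S, Y, T, _, rfl⟩; exact norm_nonneg _⟩
  have hseq : ∀ n : ℕ, ∃ t ∈ R, t < sInf R + 1 / ((n : ℝ) + 1) := by
    intro n
    apply exists_lt_of_csInf_lt hne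
    have : (0 : ℝ) < 1 / ((n : ℝ) + 1) := by positivity
    linarith
  choose t htR ht using hseq
  choose A S Y T hG hn using htR
  have hlim : Tendsto (fun n => ‖(inner ℂ (hom 0) (A n (hom 0)) : ℂ)‖) atTop (𝓝 (sInf R)) := by
    have h2 : Tendsto (fun n : ℕ => sInf R + 1 / ((n : ℝ) + 1)) atTop (𝓝 (sInf R + 0)) :=
      tendsto_const_nhds.add tendsto_one_div_add_atTop_nhds_zero_nat
    rw [add_zero] at h2
    refine tendsto_of_tendsto_of_tendsto_of_le_of_le tendsto_const_nhds h2 ?_ ?_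
    · intro n
      exact csInf_le hbdd ⟨A n, S n, Y n, T n, hG n, rfl⟩
    · intro n
      simp only [hn n]
      exact (ht n).le
  obtain ⟨A', S', Y', T', hG', hM⟩ := pair_limit hp hno hΦ A S Y T hG _ hlim
  by_cases h0 : (inner ℂ (hom 0) (A' (hom 0)) : ℂ) = 0
  · exact pair_final hno hΦ hab hd hG' h0
  · obtain ⟨A'', S'', Y'', T'', hG'', hlt⟩ := pair_move hp hpab hno hΦ hG' h0
    have := csInf_le hbdd ⟨A'', S'', Y'', T'', hG'', rfl⟩
    rw [hM] at hlt
    linarith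

theorem noPD_rat {p : ℝ} (hp : 0 < p) {a b : ℕ} (hpab : p * b = a) (hab : Nat.Coprime a b)
    (d : ℕ) (hd : d < b) : NoPD p d := by
  induction d with
  | zero => exact noPD_zero p
  | succ d ih => exact noPD_rat_succ hp hpab hab hd (ih (by omega))

end PFrame
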